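import Mathlib

/-!
# MP_7a1b54_al (S02015): systems of far-commuting involutions

`Sys G`: elements `x m r τ` (level `m`, period `2^(m+1)` in `r`, type `τ`) of a group `G` and a shift
`y`, where `x m r τ` is the product of the two elements of the next level over it, and elements of
the same level commute unless their positions are adjacent modulo the period.
-/

set_option autoImplicit false

namespace Pool.Agent.Helper11.WeakMax

open scoped commutatorElement

/-- Lower central series of a subgroup, inside the ambient group: `gam S 0 = S`,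
`gam S (n+1) = ⁅gam S n, S⁆`. -/
def gam {G : Type*} [Group G] (S : Subgroup G) : ℕ → Subgroup G
  | 0 => S
  | n + 1 => ⁅gam S n, S⁆

structure Sys (G : Type*) [Group G] where
  x : ℕ → ℤ → Bool → G
  y : G
  split : ∀ m r τ, x m r τ = x (m + 1) r τ * x (m + 1) (r + 2 ^ (m + 1)) τ
  per : ∀ m r τ, x m (r + 2 ^ (m + 1)) τ = x m r τ
  inv : ∀ m r τ, x m r τ * x m r τ = 1
  far : ∀ m r r' τ τ', ¬ ((2 : ℤ) ^ (m + 1) ∣ r' - r - 1) → ¬ ((2 : ℤ) ^ (m + 1) ∣ r' - r + 1) →
    Commute (x m r τ) (x m r' τ')
  shift : ∀ m r τ, y * x m r τ * y⁻¹ = x m (r + 1) τ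

namespace Sys

variable {G : Type*} [Group G] (s : Sys G)

/-- Level `m` subgroup. -/
def lvl (m : ℕ) : Subgroup G := Subgroup.closure {g | ∃ r τ, g = s.x m r τ}

/-- The union of the level subgroups. -/
def S : Subgroup G := Subgroup.closure {g | ∃ m r τ, g = s.x m r τ}

end Sys

end Pool.Agent.Helper11.WeakMax
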