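import Mathlib
import Pool.Agent.Helper11.WeakMax.Defs

/-!
# MP_7a1b54_al (S02015): local nilpotency and the Zorn step (offer 94 of helper11)
-/

set_option autoImplicit false

namespace Pool.Agent.Helper11.WeakMax

open scoped commutatorElement

namespace Sys

variable {G : Type*} [Group G] (s : Sys G)

theorem x_mem_lvlA (m : ℕ) (r : ℤ) (τ : Bool) : s.x m r τ ∈ s.lvl m :=
  Subgroup.subset_closure ⟨r, τ, rfl⟩

theorem lvl_le_succ (m : ℕ) : s.lvl m ≤ s.lvl (m + 1) := by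
  rw [lvl, Subgroup.closure_le]
  rintro g ⟨r, τ, rfl⟩
  rw [s.split m r τ]
  exact mul_mem (s.x_mem_lvlA _ _ _) (s.x_mem_lvlA _ _ _)

theorem lvl_monoA : Monotone s.lvl := monotone_nat_of_le_succ s.lvl_le_succ

theorem conj_x (m : ℕ) (r k : ℤ) (τ : Bool) :
    s.y ^ k * s.x m r τ * (s.y ^ k)⁻¹ = s.x m (r + k) τ := by
  induction k using Int.induction_on with
  | zero => simp
  | succ i ih =>
    have e : s.y ^ ((i : ℤ) + 1) = s.y * s.y ^ (i : ℤ) := by
      rw [add_comm, zpow_add, zpow_one]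
    calc s.y ^ ((i : ℤ) + 1) * s.x m r τ * (s.y ^ ((i : ℤ) + 1))⁻¹
        = s.y * (s.y ^ (i : ℤ) * s.x m r τ * (s.y ^ (i : ℤ))⁻¹) * s.y⁻¹ := by
          rw [e]; group
      _ = s.x m (r + (i + 1)) τ := by rw [ih, s.shift, add_assoc]
  | pred i ih =>
    have e : s.y ^ (-(i : ℤ) - 1) = s.y⁻¹ * s.y ^ (-(i : ℤ)) := by
      rw [sub_eq_add_neg, add_comm, zpow_add, zpow_neg_one]
    have h1 : s.y⁻¹ * s.x m (r + -(i : ℤ)) τ * s.y = s.x m (r + (-(i : ℤ) - 1)) τ := by
      have := s.shift m (r + (-(i : ℤ) - 1)) τ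
      have e2 : r + (-(i : ℤ) - 1) + 1 = r + -(i : ℤ) := by ring
      rw [e2] at this
      rw [← this]; group
    calc s.y ^ (-(i : ℤ) - 1) * s.x m r τ * (s.y ^ (-(i : ℤ) - 1))⁻¹
        = s.y⁻¹ * (s.y ^ (-(i : ℤ)) * s.x m r τ * (s.y ^ (-(i : ℤ)))⁻¹) * s.y := by
          rw [e]; group
      _ = s.x m (r + (-(i : ℤ) - 1)) τ := by rw [ih, h1]

theorem conj_mem_lvl (m : ℕ) (k : ℤ) {a : G} (ha : a ∈ s.lvl m) :
    s.y ^ k * a * (s.y ^ k)⁻¹ ∈ s.lvl m := by
  have h : (s.lvl m).map (MulAut.conj (s.y ^ k)).toMonoidHom ≤ s.lvl m := by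
    rw [lvl, MonoidHom.map_closure, Subgroup.closure_le]
    rintro _ ⟨g, ⟨r, τ, rfl⟩, rfl⟩
    show s.y ^ k * s.x m r τ * (s.y ^ k)⁻¹ ∈ _
    rw [s.conj_x]
    exact s.x_mem_lvlA _ _ _
  exact h ⟨a, ha, rfl⟩

theorem comm_lvl (m : ℕ) {a : G} (ha : a ∈ s.lvl m) :
    Commute (s.y ^ (2 ^ (m + 1) : ℤ)) a := by
  have h : s.lvl m ≤ Subgroup.centralizer {s.y ^ (2 ^ (m + 1) : ℤ)} := by
    rw [lvl, Subgroup.closure_le]
    rintro g ⟨r, τ, rfl⟩
    rw [SetLike.mem_coe, Subgroup.mem_centralizer_singleton_iff]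
    have := s.conj_x m r (2 ^ (m + 1)) τ
    rw [s.per] at this
    rw [← eq_mul_inv_iff_mul_eq] at this
    rw [inv_inv] at this
    exact this.symm
  have := Subgroup.mem_centralizer_singleton_iff.mp (h ha)
  exact this.symm

/-- Elements `a * y ^ k` with `a` of level `m`. -/
def ext (m : ℕ) : Subgroup G where
  carrier := {g | ∃ a ∈ s.lvl m, ∃ k : ℤ, g = a * s.y ^ k}
  mul_mem' := by
    rintro _ _ ⟨a, ha, k, rfl⟩ ⟨b, hb, l, rfl⟩
    refine ⟨a * (s.y ^ k * b * (s.y ^ k)⁻¹), mul_mem ha (s.conj_mem_lvl m k hb), k + l, ?_⟩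
    rw [zpow_add]; group
  one_mem' := ⟨1, one_mem _, 0, by simp⟩
  inv_mem' := by
    rintro _ ⟨a, ha, k, rfl⟩
    refine ⟨s.y ^ (-k) * a⁻¹ * (s.y ^ (-k))⁻¹, s.conj_mem_lvl m (-k) (inv_mem ha), -k, ?_⟩
    group

theorem lvl_le_ext (m : ℕ) : s.lvl m ≤ s.ext m := fun a ha => ⟨a, ha, 0, by simp⟩

theorem y_mem_ext (m : ℕ) : s.y ∈ s.ext m := ⟨1, one_mem _, 1, by simp⟩

theorem ext_mono : Monotone s.ext := by
  rintro m n h _ ⟨a, ha, k, rfl⟩
  exact ⟨a, s.lvl_monoA h ha, k, rfl⟩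

theorem S_sup_le : s.S ⊔ Subgroup.zpowers s.y ≤ ⨆ m, s.ext m := by
  rw [sup_le_iff]
  constructor
  · rw [S, Subgroup.closure_le]
    rintro g ⟨m, r, τ, rfl⟩
    exact (le_iSup s.ext m) (s.lvl_le_ext m (s.x_mem_lvlA m r τ))
  · rw [Subgroup.zpowers_le]
    exact (le_iSup s.ext 0) (s.y_mem_ext 0)

theorem finset_le_ext (hgen : s.S ⊔ Subgroup.zpowers s.y = ⊤) (t : Finset G) :
    ∃ m, ∀ g ∈ t, g ∈ s.ext m := by
  classical
  induction t using Finset.induction_on with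
  | empty => exact ⟨0, by simp⟩
  | insert a t ha ih =>
    obtain ⟨m, hm⟩ := ih
    have h1 : a ∈ ⨆ m, s.ext m := s.S_sup_le (by rw [hgen]; exact Subgroup.mem_top a)
    rw [Subgroup.mem_iSup_of_directed (s.ext_mono.directed_le)] at h1
    obtain ⟨n, hn⟩ := h1
    refine ⟨max m n, ?_⟩
    intro g hg
    rcases Finset.mem_insert.mp hg with rfl | hg
    · exact s.ext_mono (le_max_right m n) hn
    · exact s.ext_mono (le_max_left m n) (hm g hg)

theorem pow_ext (m : ℕ) {a : G} (ha : a ∈ s.lvl m) (k : ℤ) (n : ℕ) :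
    ∃ a' ∈ s.lvl m, (a * s.y ^ k) ^ n = a' * s.y ^ (k * n) := by
  induction n with
  | zero => exact ⟨1, one_mem _, by simp⟩
  | succ n ih =>
    obtain ⟨a', ha', e⟩ := ih
    refine ⟨a' * (s.y ^ (k * n) * a * (s.y ^ (k * n))⁻¹),
      mul_mem ha' (s.conj_mem_lvl m _ ha), ?_⟩
    rw [pow_succ, e]
    have : k * ((n + 1 : ℕ) : ℤ) = k * n + k := by push_cast; ring
    rw [this, zpow_add]; group

/-- powers of the central element are central in `ext m`. -/
theorem zpow_mem_center (m : ℕ) (q : ℤ) (h : s.y ^ ((2 ^ (m + 1) : ℤ) * q) ∈ s.ext m) :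
    (⟨s.y ^ ((2 ^ (m + 1) : ℤ) * q), h⟩ : s.ext m) ∈ Subgroup.center (s.ext m) := by
  rw [Subgroup.mem_center_iff]
  rintro ⟨_, ⟨a, ha, k, rfl⟩⟩
  apply Subtype.ext
  show a * s.y ^ k * s.y ^ ((2 ^ (m + 1) : ℤ) * q) = s.y ^ ((2 ^ (m + 1) : ℤ) * q) * (a * s.y ^ k)
  have h1 : Commute (s.y ^ ((2 ^ (m + 1) : ℤ) * q)) a := by
    rw [zpow_mul]; exact (s.comm_lvl m ha).zpow_left q
  have h2 : Commute (s.y ^ ((2 ^ (m + 1) : ℤ) * q)) (s.y ^ k) :=
    (Commute.refl s.y).zpow_zpow _ _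
  exact (h1.mul_right h2).eq.symm

theorem ext_nilpotent (m : ℕ) (hfin : Finite (s.lvl m)) (hp : IsPGroup 2 (s.lvl m)) :
    Group.IsNilpotent (s.ext m) := by
  have hc : ∀ q : ℤ, ∀ h : s.y ^ ((2 ^ (m + 1) : ℤ) * q) ∈ s.ext m,
      ((⟨s.y ^ ((2 ^ (m + 1) : ℤ) * q), h⟩ : s.ext m) : s.ext m ⧸ Subgroup.center (s.ext m)) = 1 :=
    fun q h => (QuotientGroup.eq_one_iff _).mpr (s.zpow_mem_center m q h)
  have hyk : ∀ k : ℤ, s.y ^ k ∈ s.ext m := fun k => zpow_mem (s.y_mem_ext m) k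
  have hfin' : Finite (s.ext m ⧸ Subgroup.center (s.ext m)) := by
    let φ : s.lvl m × Fin (2 ^ (m + 1)) → s.ext m ⧸ Subgroup.center (s.ext m) := fun p =>
      ((⟨p.1.1 * s.y ^ ((p.2 : ℕ) : ℤ),
        mul_mem (s.lvl_le_ext m p.1.2) (hyk _)⟩ : s.ext m) :
          s.ext m ⧸ Subgroup.center (s.ext m))
    apply Finite.of_surjective φ
    intro q
    obtain ⟨⟨g, hg⟩, rfl⟩ := QuotientGroup.mk_surjective q
    obtain ⟨a, ha, k, rfl⟩ := hg
    have hpos : (0 : ℤ) < 2 ^ (m + 1) := by positivity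
    have hlt : (k % 2 ^ (m + 1)).toNat < 2 ^ (m + 1) := by
      have h1 := Int.emod_lt_of_pos k hpos
      have h0 := Int.emod_nonneg k hpos.ne'
      zify
      rw [Int.toNat_of_nonneg h0]
      exact_mod_cast h1
    refine ⟨(⟨a, ha⟩, ⟨(k % 2 ^ (m + 1)).toNat, hlt⟩), ?_⟩
    have e : ((k % 2 ^ (m + 1)).toNat : ℤ) = k % 2 ^ (m + 1) :=
      Int.toNat_of_nonneg (Int.emod_nonneg k hpos.ne')
    have e2 : s.y ^ k = s.y ^ (k % 2 ^ (m + 1)) * s.y ^ ((2 ^ (m + 1) : ℤ) * (k / 2 ^ (m + 1))) := by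
      rw [← zpow_add, Int.emod_add_mul_ediv]
    have e3 : (⟨a * s.y ^ k, ⟨a, ha, k, rfl⟩⟩ : s.ext m)
        = ⟨a * s.y ^ (k % 2 ^ (m + 1)), mul_mem (s.lvl_le_ext m ha) (hyk _)⟩
          * ⟨s.y ^ ((2 ^ (m + 1) : ℤ) * (k / 2 ^ (m + 1))), hyk _⟩ := by
      apply Subtype.ext
      show a * s.y ^ k = a * s.y ^ (k % 2 ^ (m + 1)) * s.y ^ ((2 ^ (m + 1) : ℤ) * (k / 2 ^ (m + 1)))
      rw [e2, mul_assoc]
    rw [e3, QuotientGroup.mk_mul, hc, mul_one]
    refine congrArg (QuotientGroup.mk (s := Subgroup.center (s.ext m))) ?_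
    apply Subtype.ext
    show a * s.y ^ (((k % 2 ^ (m + 1)).toNat : ℕ) : ℤ) = a * s.y ^ (k % 2 ^ (m + 1))
    rw [e]
  have hp' : IsPGroup 2 (s.ext m ⧸ Subgroup.center (s.ext m)) := by
    intro q
    obtain ⟨⟨g, hg⟩, rfl⟩ := QuotientGroup.mk_surjective q
    obtain ⟨a, ha, k, rfl⟩ := hg
    obtain ⟨a', ha', e⟩ := s.pow_ext m ha k (2 ^ (m + 1))
    obtain ⟨j, hj⟩ := hp ⟨a', ha'⟩
    have hj' : a' ^ (2 ^ j) = 1 := congrArg Subtype.val hj
    refine ⟨(m + 1) + j, ?_⟩
    rw [← QuotientGroup.mk_pow]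
    have hz : s.y ^ ((2 ^ (m + 1) : ℤ) * (k * 2 ^ j)) ∈ s.ext m := hyk _
    have e4 : (⟨a * s.y ^ k, ⟨a, ha, k, rfl⟩⟩ : s.ext m) ^ (2 ^ ((m + 1) + j))
        = ⟨s.y ^ ((2 ^ (m + 1) : ℤ) * (k * 2 ^ j)), hz⟩ := by
      apply Subtype.ext
      show (a * s.y ^ k) ^ (2 ^ ((m + 1) + j)) = s.y ^ ((2 ^ (m + 1) : ℤ) * (k * 2 ^ j))
      rw [pow_add, pow_mul, e]
      have h1 : Commute a' (s.y ^ (k * ((2 ^ (m + 1) : ℕ) : ℤ))) := by
        have : k * ((2 ^ (m + 1) : ℕ) : ℤ) = (2 ^ (m + 1) : ℤ) * k := by push_cast; ring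
        rw [this, zpow_mul]
        exact ((s.comm_lvl m ha').zpow_left k).symm
      rw [h1.mul_pow, hj', one_mul, ← zpow_natCast, ← zpow_mul]
      congr 1
      push_cast; ring
    rw [e4]
    exact hc _ hz
  have hn : Group.IsNilpotent (s.ext m ⧸ Subgroup.center (s.ext m)) := by
    have : Fact (Nat.Prime 2) := ⟨Nat.prime_two⟩
    exact hp'.isNilpotent
  exact Group.of_quotient_center_nilpotent hn

end Sys

theorem locNilp {G : Type} [Group G] (s : Sys G)
    (hfin : ∀ m, Finite (s.lvl m)) (hp : ∀ m, IsPGroup 2 (s.lvl m))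
    (hgen : s.S ⊔ Subgroup.zpowers s.y = ⊤) (t : Finset G) :
    Group.IsNilpotent (Subgroup.closure (t : Set G)) := by
  obtain ⟨m, hm⟩ := s.finset_le_ext hgen t
  have hle : Subgroup.closure (t : Set G) ≤ s.ext m := by
    rw [Subgroup.closure_le]; exact hm
  have := s.ext_nilpotent m (hfin m) (hp m)
  have : Group.IsNilpotent ((Subgroup.closure (t : Set G)).subgroupOf (s.ext m)) := inferInstance
  exact Group.nilpotent_of_mulEquiv (Subgroup.subgroupOfEquivOfLe hle)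

theorem zorn {G : Type} [Group G] (S : Subgroup G) (hS : S.Normal)
    (hloc : ∀ t : Finset G, Group.IsNilpotent (Subgroup.closure (t : Set G)))
    (hne : ∀ n, gam S n ≠ ⊥)
    (hex : ∀ n, ∃ F : Finset G, (F : Set G) ⊆ gam S n ∧
      gam S (n + 1) ≤ Subgroup.normalClosure (F : Set G))
    (hwm : ∀ n, ∀ f : ℕ → Subgroup G, (∀ i, (f i).Normal) → Monotone f →
      (∀ i, gam S n ≤ f i) → ∃ n₀ : ℕ, ∀ i, n₀ ≤ i → (f i).relIndex (f (i + 1)) ≠ 0) :
    ∃ (Q : Type) (_ : Group Q),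
      Nontrivial Q ∧
      (∀ t : Finset Q, Group.IsNilpotent (Subgroup.closure (t : Set Q))) ∧
      Subgroup.center Q = ⊥ ∧
      (∀ f : ℕ → Subgroup Q, (∀ n, (f n).Normal) → Monotone f →
        ∃ n₀ : ℕ, ∀ n, n₀ ≤ n → ((f n).subgroupOf (f (n + 1))).index ≠ 0) := by
  classical
  -- the Zorn set
  let 𝒲 : Set (Subgroup G) := {W | W.Normal ∧ ∀ n, ¬ gam S n ≤ W}
  have hbot : (⊥ : Subgroup G) ∈ 𝒲 := by
    refine ⟨inferInstance, fun n hn => hne n (le_bot_iff.mp hn)⟩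
  obtain ⟨W, -, hWmax⟩ : ∃ W, ⊥ ≤ W ∧ Maximal (fun W => W ∈ 𝒲) W := by
    refine zorn_le_nonempty₀ 𝒲 ?_ ⊥ hbot
    intro c hc hchain W₀ hW₀
    have hne' : c.Nonempty := ⟨W₀, hW₀⟩
    refine ⟨sSup c, ⟨?_, ?_⟩, fun z hz => le_sSup hz⟩
    · -- normal
      refine ⟨fun g hg x => ?_⟩
      rw [Subgroup.mem_sSup_of_directedOn hne' hchain.directedOn] at hg ⊢
      obtain ⟨U, hU, hgU⟩ := hg
      exact ⟨U, hU, (hc hU).1.conj_mem g hgU x⟩
    · intro n hn
      obtain ⟨F, hF, hF'⟩ := hex n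
      -- finite set inside the union of a chain
      have key : ∀ F : Finset G, (∀ g ∈ F, g ∈ sSup c) → ∃ U ∈ c, ∀ g ∈ F, g ∈ U := by
        intro F
        induction F using Finset.induction_on with
        | empty => intro _; exact ⟨W₀, hW₀, by simp⟩
        | insert a F ha ih =>
          intro h
          obtain ⟨U, hU, hFU⟩ := ih (fun g hg => h g (Finset.mem_insert_of_mem hg))
          have ha' := h a (Finset.mem_insert_self a F)
          rw [Subgroup.mem_sSup_of_directedOn hne' hchain.directedOn] at ha'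
          obtain ⟨V, hV, haV⟩ := ha'
          rcases hchain.total hU hV with h1 | h1
          · refine ⟨V, hV, ?_⟩
            intro g hg
            rcases Finset.mem_insert.mp hg with rfl | hg
            · exact haV
            · exact h1 (hFU g hg)
          · refine ⟨U, hU, ?_⟩
            intro g hg
            rcases Finset.mem_insert.mp hg with rfl | hg
            · exact h1 haV
            · exact hFU g hg
      obtain ⟨U, hU, hFU⟩ := key F (fun g hg => hn (hF hg))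
      have := (hc hU).1
      exact (hc hU).2 (n + 1) (hF'.trans (Subgroup.normalClosure_le_normal (fun g hg => hFU g hg)))
  have hWn : W.Normal := hWmax.prop.1
  have hWg : ∀ n, ¬ gam S n ≤ W := hWmax.prop.2
  -- every strictly larger normal subgroup contains some term
  have hbig : ∀ N : Subgroup G, N.Normal → W ≤ N → N ≠ W → ∃ n, gam S n ≤ N := by
    intro N hN hWN hne'
    by_contra hcon
    push Not at hcon
    exact hne' (le_antisymm (hWmax.le_of_ge ⟨hN, hcon⟩ hWN) hWN)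
  let π : G →* G ⧸ W := QuotientGroup.mk' W
  have hπ : Function.Surjective π := QuotientGroup.mk'_surjective W
  have hker : π.ker = W := QuotientGroup.ker_mk' W
  refine ⟨G ⧸ W, inferInstance, ?_, ?_, ?_, ?_⟩
  · -- nontrivial
    rw [← not_subsingleton_iff_nontrivial]
    intro hsub
    apply hWg 0
    intro g _
    rw [← QuotientGroup.eq_one_iff]
    exact Subsingleton.elim _ _
  · -- locally nilpotent
    intro t
    obtain ⟨t', ht'⟩ : ∃ t' : Finset G, t'.image π = t := by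
      refine ⟨t.image (Function.surjInv hπ), ?_⟩
      rw [Finset.image_image]
      have : (π ∘ Function.surjInv hπ) = id := by
        funext x; exact Function.surjInv_eq hπ x
      rw [this, Finset.image_id]
    have hcl : Subgroup.closure (t : Set (G ⧸ W)) = (Subgroup.closure (t' : Set G)).map π := by
      rw [MonoidHom.map_closure, ← ht', Finset.coe_image]
    rw [hcl]
    have := hloc t'
    exact Group.nilpotent_of_surjective (π.subgroupMap (Subgroup.closure (t' : Set G)))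
      (π.subgroupMap_surjective _)
  · -- trivial center
    by_contra hcen
    set Z : Subgroup G := (Subgroup.center (G ⧸ W)).comap π with hZ
    have hZn : Z.Normal := inferInstance
    have hWZ : W ≤ Z := by
      intro g hg
      rw [hZ, Subgroup.mem_comap]
      have : π g = 1 := by
        have : g ∈ π.ker := by rw [hker]; exact hg
        exact this
      rw [this]
      exact one_mem _
    have hZne : Z ≠ W := by
      intro h
      apply hcen
      rw [eq_bot_iff]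
      intro q hq
      obtain ⟨g, rfl⟩ := hπ q
      have hg : g ∈ Z := by rw [hZ, Subgroup.mem_comap]; exact hq
      rw [h, ← hker] at hg
      exact hg
    obtain ⟨n, hn⟩ := hbig Z hZn hWZ hZne
    apply hWg (n + 1)
    show ⁅gam S n, S⁆ ≤ W
    rw [Subgroup.commutator_le]
    intro a ha b _
    rw [← hker, MonoidHom.mem_ker, map_commutatorElement, commutatorElement_eq_one_iff_mul_comm]
    have : π a ∈ Subgroup.center (G ⧸ W) := hn ha
    exact ((Subgroup.mem_center_iff.mp this) (π b)).symm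
  · -- chain condition
    intro f hf hmono
    by_cases h : ∀ i, f i = ⊥
    · refine ⟨0, fun i _ => ?_⟩
      have e : (f i).subgroupOf (f (i + 1)) = ⊤ := by
        rw [Subgroup.subgroupOf_eq_top, h (i + 1)]
        exact bot_le
      rw [e, Subgroup.index_top]
      exact one_ne_zero
    · push Not at h
      obtain ⟨i₀, hi₀⟩ := h
      let F : ℕ → Subgroup G := fun i => (f (i₀ + i)).comap π
      have hF0n : (F 0).Normal := by
        have := hf (i₀ + 0)
        exact Subgroup.Normal.comap (hf (i₀ + 0)) π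
      have hWF : W ≤ F 0 := by
        intro g hg
        show π g ∈ f (i₀ + 0)
        have : π g = 1 := by
          have : g ∈ π.ker := by rw [hker]; exact hg
          exact this
        rw [this]; exact one_mem _
      have hne0 : F 0 ≠ W := by
        intro h
        apply hi₀
        rw [eq_bot_iff]
        intro q hq
        obtain ⟨g, rfl⟩ := hπ q
        have hg : g ∈ F 0 := hq
        rw [h, ← hker] at hg
        exact hg
      obtain ⟨n, hn⟩ := hbig (F 0) hF0n hWF hne0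
      have hFmono : Monotone F := by
        intro i j hij
        exact Subgroup.comap_mono (hmono (by omega))
      obtain ⟨n₀, hn₀⟩ := hwm n F (fun i => Subgroup.Normal.comap (hf _) π) hFmono
        (fun i => hn.trans (hFmono (Nat.zero_le i)))
      refine ⟨i₀ + n₀, fun i hi => ?_⟩
      have h1 := hn₀ (i - i₀) (by omega)
      have e1 : i₀ + (i - i₀) = i := by omega
      have e2 : i₀ + (i - i₀ + 1) = i + 1 := by omega
      have h2 : (F (i - i₀)).relIndex (F (i - i₀ + 1)) = (f i).relIndex (f (i + 1)) := by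
        show ((f (i₀ + (i - i₀))).comap π).relIndex ((f (i₀ + (i - i₀ + 1))).comap π) = _
        rw [Subgroup.relIndex_comap, Subgroup.map_comap_eq_self_of_surjective hπ, e1, e2]
      rw [h2] at h1
      exact h1

end Pool.Agent.Helper11.WeakMax
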