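import Pool.Agent.Helper11.WeakMax.Fin

/-!
# The ambient group `Fn ⋊ ℤ` and the concrete system
-/

set_option autoImplicit false

namespace Pool.Agent.Helper11.WeakMax

open Win

/-- Translation of functions. -/
noncomputable def trans (c : ℤ) : MulAut Fn where
  toFun f n a := f n (a - c)
  invFun f n a := f n (a + c)
  left_inv f := by funext n a; simp
  right_inv f := by funext n a; simp
  map_mul' _ _ := rfl

noncomputable def transHom : Multiplicative ℤ →* MulAut Fn where
  toFun c := trans (Multiplicative.toAdd c)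
  map_one' := by
    apply MulEquiv.ext
    intro f
    funext n a
    show f n (a - 0) = f n a
    rw [sub_zero]
  map_mul' c d := by
    apply MulEquiv.ext
    intro f
    funext n a
    show f n (a - (Multiplicative.toAdd c + Multiplicative.toAdd d)) =
      f n (a - Multiplicative.toAdd c - Multiplicative.toAdd d)
    congr 1
    ring

/-- The ambient group. -/
abbrev Amb : Type := Fn ⋊[transHom] Multiplicative ℤ

/-- The concrete system. -/
noncomputable def sys : Sys Amb where
  x m r τ := SemidirectProduct.inl (xF m r τ)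
  y := SemidirectProduct.inr (Multiplicative.ofAdd 1)
  split m r τ := by rw [← map_mul, ← xF_split]
  per m r τ := by rw [xF_per]
  inv m r τ := by rw [← map_mul, xF_inv, map_one]
  far m r r' τ τ' h1 h2 := (xF_far m r r' τ τ' h1 h2).map _
  shift m r τ := by
    rw [← map_inv, ← SemidirectProduct.inl_aut]
    congr 1
    funext n a
    show XX n (Ul m (r - (a - 1))) τ = XX n (Ul m (r + 1 - a)) τ
    congr 2
    ring

theorem sys_lvl (m : ℕ) : sys.lvl m = (LF m).map SemidirectProduct.inl := by
  unfold Sys.lvl LF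
  rw [MonoidHom.map_closure]
  congr 1
  ext g
  constructor
  · rintro ⟨r, τ, rfl⟩
    exact ⟨_, ⟨r, τ, rfl⟩, rfl⟩
  · rintro ⟨_, ⟨r, τ, rfl⟩, rfl⟩
    exact ⟨r, τ, rfl⟩

theorem sys_S : sys.S = SF.map SemidirectProduct.inl := by
  unfold Sys.S SF
  rw [MonoidHom.map_closure]
  congr 1
  ext g
  constructor
  · rintro ⟨m, r, τ, rfl⟩
    exact ⟨_, ⟨m, r, τ, rfl⟩, rfl⟩
  · rintro ⟨_, ⟨m, r, τ, rfl⟩, rfl⟩
    exact ⟨m, r, τ, rfl⟩

theorem gam_map {G H : Type*} [Group G] [Group H] (f : G →* H) (S : Subgroup G) (n : ℕ) :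
    gam (S.map f) n = (gam S n).map f := by
  induction n with
  | zero => rfl
  | succ n ih =>
    show ⁅gam (S.map f) n, S.map f⁆ = (⁅gam S n, S⁆).map f
    rw [ih, Subgroup.map_commutator]

theorem sys_fin (m : ℕ) : Finite (sys.lvl m) := by
  have := LF_finite m
  rw [sys_lvl]
  exact Set.Finite.to_subtype (Set.Finite.image _ (Set.toFinite (LF m : Set Fn)))

theorem sys_pgroup (m : ℕ) : IsPGroup 2 (sys.lvl m) := by
  rw [sys_lvl]
  exact (LF_pgroup m).map _

theorem sys_nonnilp (h : ∀ n, gam SF n ≠ ⊥) (n : ℕ) : gam sys.S n ≠ ⊥ := by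
  rw [sys_S, gam_map]
  intro h1
  apply h n
  rw [Subgroup.map_eq_bot_iff_of_injective _ SemidirectProduct.inl_injective] at h1
  exact h1

end Pool.Agent.Helper11.WeakMax
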