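import Pool.Agent.Helper11.WeakMax.XX
import Pool.Agent.Helper11.WeakMax.Defs

/-!
# The concrete elements
-/

set_option autoImplicit false

namespace Pool.Agent.Helper11.WeakMax

open DihedralGroup Win

/-- Level sets: the residue class of `r` modulo `2^(m+1)`. -/
def Ul (m : ℕ) (r : ℤ) : Set ℤ := {i | (2 : ℤ) ^ (m + 1) ∣ i - r}

/-- Functions of window and position. -/
abbrev Fn : Type := (n : ℕ) → ℤ → (seq n).P

/-- The level `m` generator at position `r`, type `τ`. -/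
noncomputable def xF (m : ℕ) (r : ℤ) (τ : Bool) : Fn := fun n a => XX n (Ul m (r - a)) τ

/-- The group generated by all of them. -/
noncomputable def SF : Subgroup Fn := Subgroup.closure {g | ∃ m r τ, g = xF m r τ}

/-- Level subgroup. -/
noncomputable def LF (m : ℕ) : Subgroup Fn := Subgroup.closure {g | ∃ r τ, g = xF m r τ}

theorem Ul_add_per (m : ℕ) (r : ℤ) : Ul m (r + 2 ^ (m + 1)) = Ul m r := by
  ext i
  simp only [Ul, Set.mem_ofPred_eq]
  constructor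
  · rintro ⟨c, hc⟩; exact ⟨c + 1, by linear_combination hc⟩
  · rintro ⟨c, hc⟩; exact ⟨c - 1, by linear_combination hc⟩

theorem Ul_congr {m : ℕ} {r r' : ℤ} (h : (2 : ℤ) ^ (m + 1) ∣ r' - r) : Ul m r = Ul m r' := by
  obtain ⟨c, hc⟩ := h
  ext i
  simp only [Ul, Set.mem_ofPred_eq]
  constructor
  · rintro ⟨d, hd⟩; exact ⟨d - c, by linear_combination hd - hc⟩
  · rintro ⟨d, hd⟩; exact ⟨d + c, by linear_combination hd + hc⟩

theorem two_pow_not_dvd_one (m : ℕ) : ¬ (2 : ℤ) ^ (m + 1) ∣ 1 := by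
  intro h
  have h2 : (2 : ℤ) ∣ 2 ^ (m + 1) := dvd_pow_self 2 (by omega)
  have := h2.trans h
  omega

theorem Ul_far {m : ℕ} {r r' : ℤ} (h1 : ¬ ((2 : ℤ) ^ (m + 1) ∣ r' - r - 1))
    (h2 : ¬ ((2 : ℤ) ^ (m + 1) ∣ r' - r + 1)) : Far (Ul m r) (Ul m r') := by
  intro u hu v hv
  obtain ⟨c, hc⟩ : (2 : ℤ) ^ (m + 1) ∣ u - r := hu
  obtain ⟨d, hd⟩ : (2 : ℤ) ^ (m + 1) ∣ v - r' := hv
  constructor
  · rintro rfl
    apply h1
    exact ⟨c - d, by linear_combination hc - hd⟩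
  · rintro rfl
    apply h2
    exact ⟨c - d, by linear_combination hc - hd⟩

theorem Ul_self_far (m : ℕ) (r : ℤ) : Far (Ul m r) (Ul m r) := by
  apply Ul_far
  · intro h
    apply two_pow_not_dvd_one m
    have := h.neg_right
    simpa using this
  · intro h
    apply two_pow_not_dvd_one m
    simpa using h

theorem Ul_split (m : ℕ) (r : ℤ) :
    Ul m r = Ul (m + 1) r ∪ Ul (m + 1) (r + 2 ^ (m + 1)) := by
  ext i
  simp only [Ul, Set.mem_ofPred_eq, Set.mem_union]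
  constructor
  · rintro ⟨c, hc⟩
    rcases Int.even_or_odd' c with ⟨d, hd | hd⟩
    · left; exact ⟨d, by rw [hc, hd]; ring⟩
    · right
      refine ⟨d, ?_⟩
      have : i - (r + 2 ^ (m + 1)) = 2 ^ (m + 1) * c - 2 ^ (m + 1) := by rw [← hc]; ring
      rw [this, hd]; ring
  · rintro (⟨d, hd⟩ | ⟨d, hd⟩)
    · exact ⟨2 * d, by rw [hd]; ring⟩
    · refine ⟨2 * d + 1, ?_⟩
      have : i - r = i - (r + 2 ^ (m + 1)) + 2 ^ (m + 1) := by ring
      rw [this, hd]; ring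

theorem not_dvd_aux (m : ℕ) (e : ℤ) (he : e = 1 ∨ e = -1) :
    ¬ (2 : ℤ) ^ (m + 1 + 1) ∣ 2 ^ (m + 1) + e := by
  intro h
  have h2 : (2 : ℤ) ∣ 2 ^ (m + 1 + 1) := dvd_pow_self 2 (by omega)
  have h3 : (2 : ℤ) ∣ 2 ^ (m + 1) := dvd_pow_self 2 (by omega)
  have h4 := (Int.dvd_add_right h3).1 (h2.trans h)
  rcases he with rfl | rfl <;> omega

theorem Ul_half_far (m : ℕ) (r : ℤ) : Far (Ul (m + 1) r) (Ul (m + 1) (r + 2 ^ (m + 1))) := by
  apply Ul_far
  · have := not_dvd_aux m (-1) (Or.inr rfl)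
    intro h; apply this
    convert h using 1; ring
  · have := not_dvd_aux m 1 (Or.inl rfl)
    intro h; apply this
    convert h using 1; ring

theorem Ul_half_disj (m : ℕ) (r : ℤ) :
    Disjoint (Ul (m + 1) r) (Ul (m + 1) (r + 2 ^ (m + 1))) := by
  rw [Set.disjoint_left]
  rintro i ⟨c, hc⟩ ⟨d, hd⟩
  have : (2 : ℤ) ^ (m + 1) * 1 = 2 ^ (m + 1) * (2 * (c - d)) := by
    have e : (2 : ℤ) ^ (m + 1) = 2 ^ (m + 1 + 1) * c - 2 ^ (m + 1 + 1) * d := by
      linear_combination hc - hd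
    rw [mul_one]
    nth_rewrite 1 [e]
    ring
  have h2 := mul_left_cancel₀ (by positivity : (2 : ℤ) ^ (m + 1) ≠ 0) this
  omega

theorem xF_split (m : ℕ) (r : ℤ) (τ : Bool) :
    xF m r τ = xF (m + 1) r τ * xF (m + 1) (r + 2 ^ (m + 1)) τ := by
  funext n a
  show XX n (Ul m (r - a)) τ = XX n (Ul (m + 1) (r - a)) τ * XX n (Ul (m + 1) (r + 2 ^ (m + 1) - a)) τ
  have e : r + 2 ^ (m + 1) - a = (r - a) + 2 ^ (m + 1) := by ring
  rw [e, Ul_split m (r - a), XX_union n _ _ τ (Ul_half_far m (r - a)) (Ul_half_disj m (r - a))]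

theorem xF_per (m : ℕ) (r : ℤ) (τ : Bool) : xF m (r + 2 ^ (m + 1)) τ = xF m r τ := by
  funext n a
  show XX n (Ul m (r + 2 ^ (m + 1) - a)) τ = XX n (Ul m (r - a)) τ
  have e : r + 2 ^ (m + 1) - a = (r - a) + 2 ^ (m + 1) := by ring
  rw [e, Ul_add_per]

theorem xF_inv (m : ℕ) (r : ℤ) (τ : Bool) : xF m r τ * xF m r τ = 1 := by
  funext n a
  exact XX_sq n _ τ (Ul_self_far m _)

theorem xF_far (m : ℕ) (r r' : ℤ) (τ τ' : Bool) (h1 : ¬ ((2 : ℤ) ^ (m + 1) ∣ r' - r - 1))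
    (h2 : ¬ ((2 : ℤ) ^ (m + 1) ∣ r' - r + 1)) : Commute (xF m r τ) (xF m r' τ') := by
  funext n a
  apply (XX_comm n _ _ τ τ' _).eq
  apply Ul_far
  · convert h1 using 2; ring
  · convert h2 using 2; ring

end Pool.Agent.Helper11.WeakMax
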