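import Pool.Agent.Helper11.WeakMax.A
import Pool.Agent.Helper24.WeakMax.B
import Pool.Agent.Helper83.WeakMax.C
import Pool.Agent.Helper11.WeakMax.Defs

/-!
# Assembly of the abstract part
-/

set_option autoImplicit false

namespace Pool.Agent.Helper11.WeakMax

open scoped commutatorElement

section Index

variable {G : Type*} [Group G]

theorem modular_normal {H K B : Subgroup G} (hHK : H ≤ K) (hH : H.Normal) :
    (H ⊔ B) ⊓ K = H ⊔ B ⊓ K := by
  apply le_antisymm
  · rintro g ⟨hg1, hg2⟩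
    obtain ⟨a, ha, b, hb, rfl⟩ := Subgroup.mem_sup_of_normal_left.1 hg1
    have hbK : b ∈ K := (Subgroup.mul_mem_cancel_left _ (hHK ha)).1 hg2
    exact Subgroup.mul_mem _ ((le_sup_left : H ≤ _) ha)
      ((le_sup_right : B ⊓ K ≤ _) ⟨hb, hbK⟩)
  · exact sup_le (le_inf le_sup_left hHK) (inf_le_inf_right _ le_sup_right)

theorem relIndex_ext_ne_zero {H K B : Subgroup G} (hHK : H ≤ K) (hH : H.Normal)
    (h1 : (H ⊓ B).relIndex (K ⊓ B) ≠ 0) (h2 : (H ⊔ B).relIndex (K ⊔ B) ≠ 0) :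
    H.relIndex K ≠ 0 := by
  have e0 : H.relIndex (K ⊓ B) ≠ 0 := by
    intro h
    apply h1
    rw [← Subgroup.inf_relIndex_right] at h
    have : H ⊓ (K ⊓ B) = H ⊓ B := by
      rw [← inf_assoc, inf_eq_left.2 hHK]
    rw [this] at h
    exact h
  have e1 : H.relIndex (H ⊔ K ⊓ B) ≠ 0 := by
    rw [Subgroup.relIndex_sup_left]; exact e0
  have e2 : (H ⊔ B).relIndex K ≠ 0 := by
    intro h
    exact h2 (Subgroup.relIndex_eq_zero_of_le_right le_sup_left h)
  have e3 : (H ⊔ K ⊓ B).relIndex K ≠ 0 := by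
    have : H ⊔ K ⊓ B = (H ⊔ B) ⊓ K := by
      rw [inf_comm K B, modular_normal hHK hH]
    rw [this, Subgroup.inf_relIndex_right]
    exact e2
  exact Subgroup.relIndex_ne_zero_trans e1 e3

/-- A normal subgroup containing `S` and a nontrivial power of `y`, `G = S⟨y⟩`, has finite
index. -/
theorem index_ne_zero_of_pow {S L : Subgroup G} {y : G} (hL : L.Normal)
    (hgen : S ⊔ Subgroup.zpowers y = ⊤) (hS : S ≤ L) {k : ℤ} (hk : k ≠ 0) (hyk : y ^ k ∈ L) :
    L.index ≠ 0 := by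
  have h1 : IsOfFinOrder (y : G ⧸ L) := by
    rw [isOfFinOrder_iff_zpow_eq_one]
    refine ⟨k, hk, ?_⟩
    rw [← QuotientGroup.mk_zpow]
    exact (QuotientGroup.eq_one_iff _).2 hyk
  have h2 : Subgroup.zpowers (y : G ⧸ L) = ⊤ := by
    rw [eq_top_iff]
    have h3 : (⊤ : Subgroup G).map (QuotientGroup.mk' L) = ⊤ :=
      Subgroup.map_top_of_surjective _ (QuotientGroup.mk'_surjective L)
    rw [← h3, ← hgen, Subgroup.map_sup, sup_le_iff]
    constructor
    · rw [Subgroup.map_le_iff_le_comap]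
      intro g hg
      rw [Subgroup.mem_comap]
      have : (QuotientGroup.mk' L) g = 1 := (QuotientGroup.eq_one_iff _).2 (hS hg)
      rw [this]; exact Subgroup.one_mem _
    · rw [MonoidHom.map_zpowers]; rfl
  have h4 : Finite (G ⧸ L) := by
    have : Finite (Subgroup.zpowers (y : G ⧸ L)) := (finite_zpowers.2 h1).to_subtype
    rw [h2] at this
    exact Finite.of_equiv _ (Subgroup.topEquiv (G := G ⧸ L)).toEquiv
  exact Subgroup.index_ne_zero_of_finite

end Index

namespace Sys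

variable {G : Type*} [Group G] (s : Sys G)

theorem y_conj_S {a : G} (ha : a ∈ s.S) : s.y * a * s.y⁻¹ ∈ s.S := by
  unfold S at ha
  induction ha using Subgroup.closure_induction with
  | mem p hp =>
    obtain ⟨m, r, τ, rfl⟩ := hp
    rw [s.shift]
    exact Subgroup.subset_closure ⟨m, r + 1, τ, rfl⟩
  | one => simp
  | mul a b _ _ ha hb =>
    have : s.y * (a * b) * s.y⁻¹ = (s.y * a * s.y⁻¹) * (s.y * b * s.y⁻¹) := by group
    rw [this]; exact Subgroup.mul_mem _ ha hb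
  | inv a _ ha =>
    have : s.y * a⁻¹ * s.y⁻¹ = (s.y * a * s.y⁻¹)⁻¹ := by group
    rw [this]; exact Subgroup.inv_mem _ ha

theorem y_conj_S' {a : G} (ha : a ∈ s.S) : s.y⁻¹ * a * s.y ∈ s.S := by
  unfold S at ha
  induction ha using Subgroup.closure_induction with
  | mem p hp =>
    obtain ⟨m, r, τ, rfl⟩ := hp
    have h1 := s.shift m (r - 1) τ
    rw [sub_add_cancel] at h1
    rw [← h1]
    have : s.y⁻¹ * (s.y * s.x m (r - 1) τ * s.y⁻¹) * s.y = s.x m (r - 1) τ := by group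
    rw [this]
    exact Subgroup.subset_closure ⟨m, r - 1, τ, rfl⟩
  | one => simp
  | mul a b _ _ ha hb =>
    have : s.y⁻¹ * (a * b) * s.y = (s.y⁻¹ * a * s.y) * (s.y⁻¹ * b * s.y) := by group
    rw [this]; exact Subgroup.mul_mem _ ha hb
  | inv a _ ha =>
    have : s.y⁻¹ * a⁻¹ * s.y = (s.y⁻¹ * a * s.y)⁻¹ := by group
    rw [this]; exact Subgroup.inv_mem _ ha

theorem S_normal (hgen : s.S ⊔ Subgroup.zpowers s.y = ⊤) : s.S.Normal := by
  rw [← Subgroup.normalizer_eq_top_iff, eq_top_iff, ← hgen, sup_le_iff]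
  refine ⟨Subgroup.le_normalizer, ?_⟩
  rw [Subgroup.zpowers_le, Subgroup.mem_normalizer_iff]
  intro a
  refine ⟨fun ha => s.y_conj_S ha, fun ha => ?_⟩
  have := s.y_conj_S' ha
  have e : s.y⁻¹ * (s.y * a * s.y⁻¹) * s.y = a := by group
  rwa [e] at this

theorem gam_normal (hgen : s.S ⊔ Subgroup.zpowers s.y = ⊤) (n : ℕ) : (gam s.S n).Normal := by
  have hS := s.S_normal hgen
  induction n with
  | zero => exact hS
  | succ n ih =>
    show (⁅gam s.S n, s.S⁆).Normal
    exact Subgroup.commutator_normal _ _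

theorem gam_anti (hgen : s.S ⊔ Subgroup.zpowers s.y = ⊤) (n : ℕ) :
    gam s.S (n + 1) ≤ gam s.S n := by
  have := s.gam_normal hgen n
  exact Subgroup.commutator_le_left _ _

/-- Chain condition for the intersections with `gam S j`. -/
theorem wm_gam (hgen : s.S ⊔ Subgroup.zpowers s.y = ⊤) (n : ℕ) (f : ℕ → Subgroup G)
    (hf : ∀ i, (f i).Normal) (hmono : Monotone f) (hn : ∀ i, gam s.S n ≤ f i) (j : ℕ)
    (hj : j ≤ n) :
    ∃ n₀ : ℕ, ∀ i, n₀ ≤ i → (f i ⊓ gam s.S j).relIndex (f (i + 1) ⊓ gam s.S j) ≠ 0 := by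
  induction hj using Nat.decreasingInduction with
  | self =>
    refine ⟨0, fun i _ => ?_⟩
    rw [inf_eq_right.2 (hn i), inf_eq_right.2 (hn (i + 1)), Subgroup.relIndex_self]
    exact one_ne_zero
  | of_succ j hj ih =>
    obtain ⟨n₁, h1⟩ := ih
    have hN0 := s.gam_normal hgen (j + 1)
    have hN1 := s.gam_normal hgen j
    have hle := s.gam_anti hgen j
    obtain ⟨k, m₀, z, z1, z2, z3, z4, z5, z6⟩ := patterns s j
    obtain ⟨n₂, h2⟩ := Pool.Agent.Helper24.WeakMax.wm_factor s.y (gam s.S (j + 1)) (gam s.S j)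
      hN0 hN1 hle (Subgroup.commutator_mono le_rfl (gam_le_self s.S j)) z m₀ z1 z2 z3
      (fun α m r hm => by rw [← z4 α m r hm, inv_mul_cancel]; exact Subgroup.one_mem _)
      (fun α m r hm => by rw [z5 α m r hm, inv_mul_cancel]; exact Subgroup.one_mem _)
      (fun α m r hm => by rw [z6 α m r hm, inv_mul_cancel]; exact Subgroup.one_mem _)
      (fun i => f i ⊔ gam s.S (j + 1))
      (fun i => by have := hf i; exact Subgroup.sup_normal _ _)
      (fun a b hab => sup_le_sup_right (hmono hab) _)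
      (fun i => le_sup_right)
    refine ⟨max n₁ n₂, fun i hi => ?_⟩
    have hfi := hf i
    apply relIndex_ext_ne_zero (B := gam s.S (j + 1))
      (inf_le_inf_right _ (hmono (Nat.le_succ i))) (Subgroup.normal_inf_normal _ _)
    · have := h1 i (le_trans (le_max_left _ _) hi)
      rw [inf_assoc, inf_assoc, inf_eq_right.2 hle]
      exact this
    · have := h2 i (le_trans (le_max_right _ _) hi)
      have e : ∀ i, (f i ⊔ gam s.S (j + 1)) ⊓ gam s.S j = f i ⊓ gam s.S j ⊔ gam s.S (j + 1) := by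
        intro i
        rw [sup_comm (f i), sup_comm (f i ⊓ gam s.S j), modular_normal hle hN0]
      rw [e, e] at this
      exact this

theorem wm_all (hgen : s.S ⊔ Subgroup.zpowers s.y = ⊤) (n : ℕ) (f : ℕ → Subgroup G)
    (hf : ∀ i, (f i).Normal) (hmono : Monotone f) (hn : ∀ i, gam s.S n ≤ f i) :
    ∃ n₀ : ℕ, ∀ i, n₀ ≤ i → (f i).relIndex (f (i + 1)) ≠ 0 := by
  obtain ⟨n₁, h1⟩ := s.wm_gam hgen n f hf hmono hn 0 (Nat.zero_le _)
  have hS := s.S_normal hgen
  have h2 : ∃ n₂ : ℕ, ∀ i, n₂ ≤ i → (f i ⊔ s.S).relIndex (f (i + 1) ⊔ s.S) ≠ 0 := by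
    by_cases hc : ∀ i, f i ≤ s.S
    · refine ⟨0, fun i _ => ?_⟩
      rw [sup_eq_right.2 (hc i), sup_eq_right.2 (hc (i + 1)), Subgroup.relIndex_self]
      exact one_ne_zero
    · push Not at hc
      obtain ⟨i₀, hi₀⟩ := hc
      refine ⟨i₀, fun i hi => ?_⟩
      obtain ⟨g, hg, hgS⟩ := SetLike.not_le_iff_exists.1 hi₀
      have hgt : g ∈ s.S ⊔ Subgroup.zpowers s.y := by rw [hgen]; trivial
      rw [Subgroup.mem_sup_of_normal_left] at hgt
      obtain ⟨a, ha, b, ⟨k, rfl⟩, rfl⟩ := hgt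
      have hk : k ≠ 0 := by
        rintro rfl
        apply hgS
        simpa using ha
      have hfi := hf i
      have hN : (f i ⊔ s.S).Normal := Subgroup.sup_normal _ _
      have hyk : s.y ^ k ∈ f i ⊔ s.S := by
        have h3 : a * s.y ^ k ∈ f i ⊔ s.S := (le_sup_left : f i ≤ _) (hmono hi hg)
        have h4 : a ∈ f i ⊔ s.S := (le_sup_right : s.S ≤ _) ha
        exact (Subgroup.mul_mem_cancel_left _ h4).1 h3
      have h5 := index_ne_zero_of_pow hN hgen le_sup_right hk hyk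
      intro h6
      apply h5
      have := Subgroup.relIndex_dvd_index_of_le
        (sup_le_sup_right (hmono (Nat.le_succ i)) s.S : f i ⊔ s.S ≤ f (i + 1) ⊔ s.S)
      rw [h6] at this
      exact Nat.eq_zero_of_zero_dvd this
  obtain ⟨n₂, h2⟩ := h2
  refine ⟨max n₁ n₂, fun i hi => ?_⟩
  exact relIndex_ext_ne_zero (hmono (Nat.le_succ i)) (hf i)
    (h1 i (le_trans (le_max_left _ _) hi)) (h2 i (le_trans (le_max_right _ _) hi))

end Sys

theorem hasExample {G : Type} [Group G] (s : Sys G)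
    (hfin : ∀ m, Finite (s.lvl m)) (hp : ∀ m, IsPGroup 2 (s.lvl m))
    (hgen : s.S ⊔ Subgroup.zpowers s.y = ⊤) (hne : ∀ n, gam s.S n ≠ ⊥) :
    ∃ (Q : Type) (_ : Group Q),
      Nontrivial Q ∧
      (∀ t : Finset Q, Group.IsNilpotent (Subgroup.closure (t : Set Q))) ∧
      Subgroup.center Q = ⊥ ∧
      (∀ f : ℕ → Subgroup Q, (∀ n, (f n).Normal) → Monotone f →
        ∃ n₀ : ℕ, ∀ n, n₀ ≤ n → ((f n).subgroupOf (f (n + 1))).index ≠ 0) :=
  zorn s.S (s.S_normal hgen) (locNilp s hfin hp hgen) hne (exactness s) (s.wm_all hgen)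

end Pool.Agent.Helper11.WeakMax
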