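import Pool.Agent.Helper11.WeakMax.Gam

/-!
# The level subgroups are finite 2-groups
-/

set_option autoImplicit false

namespace Pool.Agent.Helper11.WeakMax

open DihedralGroup Win

theorem LF_per {m : ℕ} {f : Fn} (hf : f ∈ LF m) (n : ℕ) (a : ℤ) :
    f n (a + 2 ^ (m + 1)) = f n a := by
  unfold LF at hf
  induction hf using Subgroup.closure_induction with
  | mem p hp =>
    obtain ⟨r, τ, rfl⟩ := hp
    show XX n (Ul m (r - (a + 2 ^ (m + 1)))) τ = XX n (Ul m (r - a)) τ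
    rw [Ul_congr (m := m) (r := r - (a + 2 ^ (m + 1))) (r' := r - a) ⟨1, by ring⟩]
  | one => rfl
  | mul f g _ _ hf hg => show f n _ * g n _ = f n _ * g n _; rw [hf, hg]
  | inv f _ hf => show (f n _)⁻¹ = (f n _)⁻¹; rw [hf]

theorem LF_per' {m : ℕ} {f : Fn} (hf : f ∈ LF m) (n : ℕ) (a : ℤ) (k : ℕ) :
    f n (a + 2 ^ (m + 1) * k) = f n a := by
  induction k with
  | zero => simp
  | succ k ih =>
    have : a + 2 ^ (m + 1) * ((k + 1 : ℕ) : ℤ) = (a + 2 ^ (m + 1) * k) + 2 ^ (m + 1) := by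
      push_cast; ring
    rw [this, LF_per hf, ih]

theorem LF_mod {m : ℕ} {f : Fn} (hf : f ∈ LF m) (n : ℕ) (a : ℤ) :
    f n a = f n (a % 2 ^ (m + 1)) := by
  have h := Int.emod_add_mul_ediv a (2 ^ (m + 1))
  rcases le_or_gt 0 (a / 2 ^ (m + 1)) with h0 | h0
  · obtain ⟨k, hk⟩ := Int.eq_ofNat_of_zero_le h0
    rw [hk] at h
    conv_lhs => rw [← h]
    exact LF_per' hf n _ k
  · obtain ⟨k, hk⟩ := Int.eq_ofNat_of_zero_le (by omega : 0 ≤ -(a / 2 ^ (m + 1)))
    have h2 : a % 2 ^ (m + 1) = a + 2 ^ (m + 1) * k := by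
      have hk' : (k : ℤ) = -(a / 2 ^ (m + 1)) := hk.symm
      rw [hk']; linarith
    rw [h2]
    exact (LF_per' hf n _ k).symm

theorem LF_pair {m : ℕ} {f : Fn} (hf : f ∈ LF m) (n : ℕ) (a : ℤ) :
    (f (m + 1) a, f n a) ∈ Gm m n := by
  unfold LF at hf
  induction hf using Subgroup.closure_induction with
  | mem p hp =>
    obtain ⟨r, τ, rfl⟩ := hp
    exact Subgroup.subset_closure ⟨r - a, τ, rfl⟩
  | one => exact Subgroup.one_mem _
  | mul f g _ _ hf hg => exact Subgroup.mul_mem _ hf hg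
  | inv f _ hf => exact Subgroup.inv_mem _ hf

theorem LF_fg (m : ℕ) : (LF m).FG := by
  rw [Subgroup.fg_iff]
  refine ⟨Set.range (fun p : Fin (2 ^ (m + 1)) × Bool => xF m (p.1 : ℕ) p.2), ?_,
    Set.finite_range _⟩
  apply le_antisymm
  · rw [Subgroup.closure_le]
    rintro _ ⟨p, rfl⟩
    exact Subgroup.subset_closure ⟨_, _, rfl⟩
  · unfold LF
    rw [Subgroup.closure_le]
    rintro _ ⟨r, τ, rfl⟩
    apply Subgroup.subset_closure
    have hpos : (0 : ℤ) < 2 ^ (m + 1) := by positivity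
    have h1 := Int.emod_nonneg r hpos.ne'
    have h2 := Int.emod_lt_of_pos r hpos
    obtain ⟨k, hk⟩ := Int.eq_ofNat_of_zero_le h1
    have hk2 : k < 2 ^ (m + 1) := by
      rw [hk] at h2; exact_mod_cast h2
    refine ⟨(⟨k, hk2⟩, τ), ?_⟩
    funext n a
    show XX n (Ul m ((k : ℤ) - a)) τ = XX n (Ul m (r - a)) τ
    rw [Ul_congr (m := m) (r := (k : ℤ) - a) (r' := r - a)]
    have : (k : ℤ) = r % 2 ^ (m + 1) := hk.symm
    rw [this]
    refine ⟨r / 2 ^ (m + 1), ?_⟩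
    have := Int.emod_add_mul_ediv r (2 ^ (m + 1))
    linarith

/-- Restriction to finitely many coordinates. -/
noncomputable def rho (m : ℕ) :
    LF m →* ((n : Fin (m + 2)) → (a : Fin (2 ^ (m + 1))) → (seq n).P) where
  toFun f n a := (f : Fn) n (a : ℕ)
  map_one' := rfl
  map_mul' _ _ := rfl

theorem rho_ker {m : ℕ} {f : LF m} (hf : f ∈ (rho m).ker) (n : ℕ) (hn : n < m + 2) (a : ℤ) :
    (f : Fn) n a = 1 := by
  rw [LF_mod f.2 n a]
  have hpos : (0 : ℤ) < 2 ^ (m + 1) := by positivity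
  have h1 := Int.emod_nonneg a hpos.ne'
  have h2 := Int.emod_lt_of_pos a hpos
  obtain ⟨k, hk⟩ := Int.eq_ofNat_of_zero_le h1
  have hk2 : k < 2 ^ (m + 1) := by
    rw [hk] at h2; exact_mod_cast h2
  have h3 := congrFun (congrFun hf ⟨n, hn⟩) ⟨k, hk2⟩
  rw [hk]
  exact h3

theorem ker_sq {m : ℕ} {f : LF m} (hf : f ∈ (rho m).ker) : f * f = 1 := by
  apply Subtype.ext
  funext n a
  show (f : Fn) n a * (f : Fn) n a = 1
  rcases Nat.lt_or_ge n (m + 2) with h | h
  · rw [rho_ker hf n h, mul_one]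
  · have := LF_pair f.2 n a
    rw [rho_ker hf (m + 1) (by omega)] at this
    exact (Gm_prop m n (by omega)).sq _ this

theorem ker_comm {m : ℕ} {f g : LF m} (hf : f ∈ (rho m).ker) (hg : g ∈ (rho m).ker) :
    f * g = g * f := by
  apply Subtype.ext
  funext n a
  show (f : Fn) n a * (g : Fn) n a = (g : Fn) n a * (f : Fn) n a
  rcases Nat.lt_or_ge n (m + 2) with h | h
  · rw [rho_ker hf n h, rho_ker hg n h]
  · have h1 := LF_pair f.2 n a
    have h2 := LF_pair g.2 n a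
    rw [rho_ker hf (m + 1) (by omega)] at h1
    rw [rho_ker hg (m + 1) (by omega)] at h2
    exact (Gm_prop m n (by omega)).comm _ _ h1 h2

theorem LF_finite (m : ℕ) : Finite (LF m) := by
  have h1 : Group.FG (LF m) := (Group.fg_iff_subgroup_fg _).2 (LF_fg m)
  have h2 : Group.FG (rho m).ker := Subgroup.fg_of_index_ne_zero (rho m).ker
  let inst : CommGroup (rho m).ker :=
    { (inferInstance : Group (rho m).ker) with
      mul_comm := fun a b => Subtype.ext (ker_comm a.2 b.2) }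
  have h3 : Finite (rho m).ker := by
    apply CommGroup.finite_of_fg_isMulTorsion
    intro g
    rw [isOfFinOrder_iff_pow_eq_one]
    refine ⟨2, by norm_num, ?_⟩
    rw [pow_two]
    exact Subtype.ext (ker_sq g.2)
  exact Finite.of_subgroup_quotient (rho m).ker

theorem LF_pgroup (m : ℕ) : IsPGroup 2 (LF m) := by
  intro f
  have hfin := LF_finite m
  have ho : orderOf f ≠ 0 := (orderOf_pos f).ne'
  obtain ⟨k, b, hb, hkb⟩ := Nat.exists_eq_two_pow_mul_odd ho
  refine ⟨k, ?_⟩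
  apply Subtype.ext
  funext n a
  show ((f : Fn) n a) ^ (2 ^ k) = 1
  obtain ⟨c, hc⟩ := (seq n).isp ((f : Fn) n a)
  have h1 : (((f : Fn) n a) ^ (2 ^ k)) ^ b = 1 := by
    rw [← pow_mul, ← hkb]
    have := congrArg (fun g : LF m => (g : Fn) n a) (pow_orderOf_eq_one f)
    exact this
  have h2 : (((f : Fn) n a) ^ (2 ^ k)) ^ (2 ^ c) = 1 := by
    rw [← pow_mul, mul_comm, pow_mul, hc, one_pow]
  have h3 : Nat.Coprime b (2 ^ c) := (Nat.coprime_two_right.2 hb).pow_right c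
  have h4 := pow_gcd_eq_one.2 ⟨h1, h2⟩
  rwa [Nat.Coprime.gcd_eq_one h3, pow_one] at h4

end Pool.Agent.Helper11.WeakMax
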