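import Pool.Agent.Helper11.WeakMax.Conc

/-!
# The kernel of level `m` is elementary abelian in every window
-/

set_option autoImplicit false

namespace Pool.Agent.Helper11.WeakMax

open DihedralGroup Win

theorem shift_Ul {m n : ℕ} (h : m ≤ n) (r : ℤ) :
    {i : ℤ | i + 2 ^ (n + 1) ∈ Ul m r} = Ul m r := by
  obtain ⟨k, rfl⟩ := Nat.exists_eq_add_of_le h
  ext i
  simp only [Ul, Set.mem_ofPred_eq]
  have e : (2 : ℤ) ^ (m + k + 1) = 2 ^ (m + 1) * 2 ^ k := by rw [← pow_add]; ring_nf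
  constructor
  · rintro ⟨c, hc⟩
    exact ⟨c - 2 ^ k, by rw [e] at hc; linear_combination hc⟩
  · rintro ⟨c, hc⟩
    exact ⟨c + 2 ^ k, by rw [e]; linear_combination hc⟩

/-- Recursion for the coarse elements. -/
theorem XX_Ul_succ {m n : ℕ} (h : m ≤ n) (r : ℤ) (τ : Bool) :
    XX (n + 1) (Ul m r) τ =
      (seq n).xp n ((2 : ℤ) ^ (n + 1) ∈ Ul m r ∧ τ = false) *
        (seq n).il n (XX n (Ul m r) τ, XX n (Ul m r) τ) := by
  show (seq n).comb n _ _ _ = _
  rw [shift_Ul h]
  unfold Win.comb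
  have hc : Commute ((seq n).xp n ((2 : ℤ) ^ (n + 1) ∈ Ul m r ∧ τ = false))
      ((seq n).il n (XX n (Ul m r) τ, 1)) := by
    apply xp_comm
    rintro ⟨h1, -⟩
    refine ⟨XX_mem_A n _ _ ?_, Subgroup.one_mem _⟩
    intro h2
    exact (Ul_self_far m r _ h1 _ h2).2 (by ring)
  rw [← hc.eq, mul_assoc, ← map_mul]
  simp

/-- Pairs of values at window `m+1` and window `n` of elements of level `m`. -/
noncomputable def Gm (m n : ℕ) : Subgroup ((seq (m + 1)).P × (seq n).P) :=
  Subgroup.closure {p | ∃ r τ, p = (XX (m + 1) (Ul m r) τ, XX n (Ul m r) τ)}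

structure GmProp (m n : ℕ) : Prop where
  memU : ∀ q v, (q, v) ∈ Gm m n → v ∈ (seq n).U
  memA : ∀ e, (1, e) ∈ Gm m n → e ∈ (seq n).A
  memB : ∀ e, (1, e) ∈ Gm m n → e ∈ (seq n).B
  sq : ∀ e, (1, e) ∈ Gm m n → e * e = 1
  comm : ∀ e e', (1, e) ∈ Gm m n → (1, e') ∈ Gm m n → e * e' = e' * e

theorem XX_Ul_mem_U {m n : ℕ} (h : m ≤ n) (r : ℤ) (τ : Bool) :
    XX (n + 1) (Ul m r) τ ∈ (seq (n + 1)).U := by
  rw [XX_Ul_succ h]
  exact ((seq n).nU n).mul_mem ((seq n).xp_mem n ((seq n).xg_mem_nU n) _)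
    ((seq n).il_mem_nU n _)

theorem Gm_base (m : ℕ) : GmProp m (m + 1) := by
  have hd : ∀ p ∈ Gm m (m + 1), p.1 = p.2 ∧ p.2 ∈ (seq (m + 1)).U := by
    intro p hp
    unfold Gm at hp
    induction hp using Subgroup.closure_induction with
    | mem p hp =>
      obtain ⟨r, τ, rfl⟩ := hp
      exact ⟨rfl, XX_Ul_mem_U le_rfl r τ⟩
    | one => exact ⟨rfl, Subgroup.one_mem _⟩
    | mul a b _ _ ha hb =>
      exact ⟨by rw [Prod.fst_mul, Prod.snd_mul, ha.1, hb.1], Subgroup.mul_mem _ ha.2 hb.2⟩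
    | inv a _ ha => exact ⟨by rw [Prod.fst_inv, Prod.snd_inv, ha.1], Subgroup.inv_mem _ ha.2⟩
  have h1 : ∀ e, (1, e) ∈ Gm m (m + 1) → e = 1 := fun e he => (hd _ he).1.symm
  refine ⟨fun q v h => (hd _ h).2, fun e he => ?_, fun e he => ?_, fun e he => ?_,
    fun e e' he he' => ?_⟩
  · rw [h1 e he]; exact Subgroup.one_mem _
  · rw [h1 e he]; exact Subgroup.one_mem _
  · rw [h1 e he, mul_one]
  · rw [h1 e he, h1 e' he']

section

variable (w : Win) (j : ℕ)

/-- The group generated by the conjugates of the centre generator by diagonal elements of `V`. -/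
noncomputable def Mh (V : Set w.P) : Subgroup (w.NP j) :=
  Subgroup.closure {g | ∃ v ∈ V, g = w.xc j v}

theorem Mh_comm (V : Set w.P) {a b : w.NP j} (ha : a ∈ Mh w j V) (hb : b ∈ Mh w j V) :
    a * b = b * a := by
  have h1 : ∀ u ∈ V, ∀ b ∈ Mh w j V, Commute (w.xc j u) b := by
    intro u hu b hb
    unfold Mh at hb
    induction hb using Subgroup.closure_induction with
    | mem p hp => obtain ⟨v, hv, rfl⟩ := hp; exact w.xc_comm j u v
    | one => exact Commute.one_right _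
    | mul a b _ _ ha hb => exact ha.mul_right hb
    | inv a _ ha => exact ha.inv_right
  have h2 : Commute a b := by
    unfold Mh at ha
    induction ha using Subgroup.closure_induction with
    | mem p hp => obtain ⟨v, hv, rfl⟩ := hp; exact h1 v hv b hb
    | one => exact Commute.one_left _
    | mul a c _ _ ha hc => exact ha.mul_left hc
    | inv a _ ha => exact ha.inv_left
  exact h2.eq

theorem Mh_sq (V : Set w.P) {a : w.NP j} (ha : a ∈ Mh w j V) : a * a = 1 := by
  unfold Mh at ha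
  induction ha using Subgroup.closure_induction with
  | mem p hp => obtain ⟨v, hv, rfl⟩ := hp; exact w.xc_sq j v
  | one => exact mul_one 1
  | mul a b ha' hb' ha hb =>
    have := Mh_comm w j V ha' hb'
    calc a * b * (a * b) = a * (b * a) * b := by group
      _ = (a * a) * (b * b) := by rw [← this]; group
      _ = 1 := by rw [ha, hb, mul_one]
  | inv a _ ha =>
    calc a⁻¹ * a⁻¹ = (a * a)⁻¹ := by group
      _ = 1 := by rw [ha, inv_one]

theorem Mh_conj (V : Subgroup w.P) {v : w.P} (hv : v ∈ V) {a : w.NP j} (ha : a ∈ Mh w j V) :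
    w.il j (v, v) * a * (w.il j (v, v))⁻¹ ∈ Mh w j V := by
  unfold Mh at ha
  induction ha using Subgroup.closure_induction with
  | mem p hp =>
    obtain ⟨u, hu, rfl⟩ := hp
    apply Subgroup.subset_closure
    refine ⟨v * u, V.mul_mem hv hu, ?_⟩
    unfold Win.xc
    have : w.il j (v * u, v * u) = w.il j (v, v) * w.il j (u, u) := by rw [← map_mul]; simp
    rw [this]; group
  | one => simp
  | mul a b _ _ ha hb =>
    have : w.il j (v, v) * (a * b) * (w.il j (v, v))⁻¹ =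
      (w.il j (v, v) * a * (w.il j (v, v))⁻¹) * (w.il j (v, v) * b * (w.il j (v, v))⁻¹) := by
      group
    rw [this]; exact Subgroup.mul_mem _ ha hb
  | inv a _ ha =>
    have : w.il j (v, v) * a⁻¹ * (w.il j (v, v))⁻¹ =
      (w.il j (v, v) * a * (w.il j (v, v))⁻¹)⁻¹ := by group
    rw [this]; exact Subgroup.inv_mem _ ha

theorem Mh_le (V : Set w.P) (H : Subgroup (w.NP j)) (h : ∀ v ∈ V, w.xc j v ∈ H) :
    Mh w j V ≤ H := by
  unfold Mh
  rw [Subgroup.closure_le]
  rintro g ⟨v, hv, rfl⟩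
  exact h v hv

end

theorem aux_mul {G : Type*} [Group G] (μ a μ' b : G) :
    μ * a * (μ' * b) = μ * (a * μ' * a⁻¹) * (a * b) := by group

theorem aux_inv {G : Type*} [Group G] (μ a : G) :
    (μ * a)⁻¹ = a⁻¹ * μ⁻¹ * (a⁻¹)⁻¹ * a⁻¹ := by group

/-- Second projection of `Gm`. -/
noncomputable def Gm2 (m n : ℕ) : Subgroup (seq n).P := (Gm m n).map (MonoidHom.snd _ _)

theorem Gm_step {m n : ℕ} (h : m ≤ n) (hn : GmProp m n) : GmProp m (n + 1) := by
  set w := seq n with hw
  have memV : ∀ {q : (seq (m + 1)).P} {v : (seq n).P}, (q, v) ∈ Gm m n → v ∈ Gm2 m n :=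
    fun {q v} hqv => ⟨(q, v), hqv, rfl⟩
  have key : ∀ p ∈ Gm m (n + 1), ∃ v : w.P, (p.1, v) ∈ Gm m n ∧
      ∃ μ ∈ Mh w n (Gm2 m n), (p.2 : w.NP n) = μ * w.il n (v, v) := by
    intro p hp
    unfold Gm at hp
    induction hp using Subgroup.closure_induction with
    | mem p hp =>
      obtain ⟨r, τ, rfl⟩ := hp
      refine ⟨XX n (Ul m r) τ, Subgroup.subset_closure ⟨r, τ, rfl⟩, _, ?_, XX_Ul_succ h r τ⟩
      apply Win.xp_mem
      rw [← Win.xc_one]
      exact Subgroup.subset_closure ⟨1, Subgroup.one_mem _, rfl⟩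
    | one =>
      refine ⟨1, Subgroup.one_mem _, 1, Subgroup.one_mem _, ?_⟩
      have : w.il n (1, 1) = 1 := map_one _
      rw [this, mul_one]; rfl
    | mul a b _ _ ha hb =>
      obtain ⟨v, hv, μ, hμ, e⟩ := ha
      obtain ⟨v', hv', μ', hμ', e'⟩ := hb
      refine ⟨v * v', (Gm m n).mul_mem hv hv', μ * (w.il n (v, v) * μ' * (w.il n (v, v))⁻¹),
        Subgroup.mul_mem _ hμ (Mh_conj w n _ (memV hv) hμ'), ?_⟩
      have e3 : w.il n (v * v', v * v') = w.il n (v, v) * w.il n (v', v') := by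
        rw [← map_mul]; simp
      rw [e3]
      exact (congrArg₂ (fun s t : w.NP n => s * t) e e').trans (aux_mul _ _ _ _)
    | inv a _ ha =>
      obtain ⟨v, hv, μ, hμ, e⟩ := ha
      have hv' := (Gm m n).inv_mem hv
      refine ⟨v⁻¹, hv', w.il n (v⁻¹, v⁻¹) * μ⁻¹ * (w.il n (v⁻¹, v⁻¹))⁻¹,
        Mh_conj w n _ (memV hv') (Subgroup.inv_mem _ hμ), ?_⟩
      have e3 : w.il n (v⁻¹, v⁻¹) = (w.il n (v, v))⁻¹ := by
        rw [← map_inv]; simp
      rw [e3]
      exact (congrArg (fun s : w.NP n => s⁻¹) e).trans (aux_inv _ _)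
  -- diagonal elements of `E` centralise `Mh`
  have hE : ∀ e, (1, e) ∈ Gm m n → ∀ μ ∈ Mh w n (Gm2 m n), Commute (w.il n (e, e)) μ := by
    intro e he μ hμ
    unfold Mh at hμ
    induction hμ using Subgroup.closure_induction with
    | mem p hp =>
      obtain ⟨v, ⟨⟨q, v'⟩, hqv, rfl⟩, rfl⟩ := hp
      have h1 : ((1 : (seq (m + 1)).P), v'⁻¹ * e * v') ∈ Gm m n := by
        have := (Gm m n).mul_mem ((Gm m n).mul_mem ((Gm m n).inv_mem hqv) he) hqv
        simpa using this
      have h2 := w.xg_comm n (hn.memA _ h1) (hn.memB _ h1)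
      have h3 : w.il n (v'⁻¹ * e * v', v'⁻¹ * e * v') =
          (w.il n (v', v'))⁻¹ * w.il n (e, e) * w.il n (v', v') := by
        rw [← map_inv, ← map_mul, ← map_mul]; simp
      rw [h3] at h2
      show w.il n (e, e) * w.xc n v' = w.xc n v' * w.il n (e, e)
      unfold Win.xc
      have h4 := h2.eq
      calc w.il n (e, e) * (w.il n (v', v') * w.xg n * (w.il n (v', v'))⁻¹)
          = w.il n (v', v') * ((w.il n (v', v'))⁻¹ * w.il n (e, e) * w.il n (v', v') * w.xg n) *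
              (w.il n (v', v'))⁻¹ := by group
        _ = w.il n (v', v') * w.xg n * (w.il n (v', v'))⁻¹ * w.il n (e, e) := by
            rw [← h4]; group
    | one => exact Commute.one_right _
    | mul a b _ _ ha hb => exact ha.mul_right hb
    | inv a _ ha => exact ha.inv_right
  have ilone : w.il n (1, 1) = 1 := map_one _
  refine ⟨?_, ?_, ?_, ?_, ?_⟩
  · intro q v hqv
    obtain ⟨v', hv', μ, hμ, e⟩ := key _ hqv
    have e' : (v : w.NP n) = μ * w.il n (v', v') := e
    rw [e']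
    exact (w.nU n).mul_mem (Mh_le w n _ _ (fun v _ => w.xc_mem_nU n v) hμ) (w.il_mem_nU n _)
  · intro f hf
    obtain ⟨v', hv', μ, hμ, e⟩ := key _ hf
    have e' : (f : w.NP n) = μ * w.il n (v', v') := e
    rw [e']
    refine (w.nA n).mul_mem (Mh_le w n _ _ (fun v hv => ?_) hμ)
      (w.il_mem_nA n _ (hn.memA _ hv'))
    obtain ⟨⟨q, v''⟩, hqv, rfl⟩ := hv
    exact w.xc_mem_nA n (hn.memU _ _ hqv)
  · intro f hf
    obtain ⟨v', hv', μ, hμ, e⟩ := key _ hf
    have e' : (f : w.NP n) = μ * w.il n (v', v') := e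
    rw [e']
    refine (w.nB n).mul_mem (Mh_le w n _ _ (fun v hv => ?_) hμ)
      (w.il_mem_nB n _ (hn.memB _ hv'))
    obtain ⟨⟨q, v''⟩, hqv, rfl⟩ := hv
    exact w.xc_mem_nB n (hn.memU _ _ hqv)
  · intro f hf
    obtain ⟨v', hv', μ, hμ, e⟩ := key _ hf
    have e' : (f : w.NP n) = μ * w.il n (v', v') := e
    rw [e']
    have c := (hE _ hv' _ hμ).eq
    have s1 := Mh_sq w n _ hμ
    have s2 : w.il n (v', v') * w.il n (v', v') = 1 := by
      rw [← map_mul, Prod.mk_mul_mk, hn.sq _ hv', ilone]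
    show μ * w.il n (v', v') * (μ * w.il n (v', v')) = 1
    calc μ * w.il n (v', v') * (μ * w.il n (v', v'))
        = μ * (w.il n (v', v') * μ) * w.il n (v', v') := by group
      _ = (μ * μ) * (w.il n (v', v') * w.il n (v', v')) := by rw [c]; group
      _ = 1 := by rw [s1, s2, mul_one]
  · intro f f' hf hf'
    obtain ⟨v, hv, μ, hμ, e⟩ := key _ hf
    obtain ⟨v', hv', μ', hμ', e'⟩ := key _ hf'
    have e1 : (f : w.NP n) = μ * w.il n (v, v) := e
    have e1' : (f' : w.NP n) = μ' * w.il n (v', v') := e'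
    rw [e1, e1']
    have c1 := (hE _ hv _ hμ').eq
    have c2 := (hE _ hv' _ hμ).eq
    have c3 := Mh_comm w n _ hμ hμ'
    have c4 : w.il n (v, v) * w.il n (v', v') = w.il n (v', v') * w.il n (v, v) := by
      rw [← map_mul, ← map_mul, Prod.mk_mul_mk, Prod.mk_mul_mk, hn.comm _ _ hv hv']
    show μ * w.il n (v, v) * (μ' * w.il n (v', v')) = μ' * w.il n (v', v') * (μ * w.il n (v, v))
    calc μ * w.il n (v, v) * (μ' * w.il n (v', v'))
        = μ * (w.il n (v, v) * μ') * w.il n (v', v') := by group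
      _ = (μ * μ') * (w.il n (v, v) * w.il n (v', v')) := by rw [c1]; group
      _ = (μ' * μ) * (w.il n (v', v') * w.il n (v, v)) := by rw [c3, c4]
      _ = μ' * (μ * w.il n (v', v')) * w.il n (v, v) := by group
      _ = μ' * w.il n (v', v') * (μ * w.il n (v, v)) := by rw [← c2]; group

theorem Gm_prop (m n : ℕ) (h : m + 1 ≤ n) : GmProp m n := by
  induction n, h using Nat.le_induction with
  | base => exact Gm_base m
  | succ n h ih => exact Gm_step (by omega) ih

end Pool.Agent.Helper11.WeakMax
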