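import Pool.Agent.Helper11.WeakMax.Conc

/-!
# The group `SF` is not nilpotent
-/

set_option autoImplicit false

namespace Pool.Agent.Helper11.WeakMax

open DihedralGroup Win

open scoped commutatorElement

theorem gam_monoNN {G : Type*} [Group G] {S T : Subgroup G} (h : S ≤ T) (n : ℕ) :
    gam S n ≤ gam T n := by
  induction n with
  | zero => exact h
  | succ n ih => exact Subgroup.commutator_mono ih h

theorem gam_map' {G H : Type*} [Group G] [Group H] (f : G →* H) (S : Subgroup G) (n : ℕ) :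
    (gam S n).map f = gam (S.map f) n := by
  induction n with
  | zero => rfl
  | succ n ih =>
    show (⁅gam S n, S⁆).map f = ⁅gam (S.map f) n, S.map f⁆
    rw [Subgroup.map_commutator, ih]

/-- `XX n U` depends only on the sites of `U` in the window. -/
theorem XX_congr (n : ℕ) : ∀ (U V : Set ℤ) (τ : Bool),
    (∀ i : ℤ, 1 ≤ i → i ≤ 2 ^ (n + 1) - 1 → (i ∈ U ↔ i ∈ V)) → XX n U τ = XX n V τ := by
  induction n with
  | zero =>
    intro U V τ h
    have h1 := h 1 le_rfl (by norm_num)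
    by_cases hU : (1 : ℤ) ∈ U
    · exact (if_pos hU).trans (if_pos (h1.1 hU)).symm
    · exact (if_neg hU).trans (if_neg (fun hV => hU (h1.2 hV))).symm
  | succ n ih =>
    intro U V τ h
    have hp : (1 : ℤ) ≤ 2 ^ (n + 1) := one_le_pow₀ (by norm_num)
    have e : (2 : ℤ) ^ (n + 1 + 1) = 2 ^ (n + 1) + 2 ^ (n + 1) := by ring
    have e1 : XX n U τ = XX n V τ := ih U V τ (fun i h1 h2 => h i h1 (by rw [e]; linarith))
    have e2 : XX n {i | i + 2 ^ (n + 1) ∈ U} τ = XX n {i | i + 2 ^ (n + 1) ∈ V} τ :=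
      ih _ _ τ (fun i h1 h2 => h (i + 2 ^ (n + 1)) (by linarith) (by rw [e]; linarith))
    have e3 : ((2 : ℤ) ^ (n + 1) ∈ U ∧ τ = false) ↔ ((2 : ℤ) ^ (n + 1) ∈ V ∧ τ = false) := by
      rw [h (2 ^ (n + 1)) hp (by rw [e]; linarith)]
    show (seq n).comb n _ _ _ = (seq n).comb n _ _ _
    rw [e1, e2, e3]

theorem comb_one_false (n : ℕ) : (seq n).comb n 1 False 1 = 1 := by
  have h : (seq n).il n (1, 1) = 1 := map_one _
  have h2 : (seq n).xp n False = 1 := if_neg not_false
  unfold Win.comb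
  rw [h, h2]
  simp

theorem XX_empty (n : ℕ) (τ : Bool) : XX n ∅ τ = 1 := by
  induction n with
  | zero => exact if_neg (Set.notMem_empty _)
  | succ n ih =>
    have e2 : XX n {i | i + 2 ^ (n + 1) ∈ (∅ : Set ℤ)} τ = 1 := by
      rw [← ih]
      exact XX_congr n _ _ τ (fun i _ _ => by simp)
    have e3 : ((2 : ℤ) ^ (n + 1) ∈ (∅ : Set ℤ) ∧ τ = false) ↔ False := by simp
    show (seq n).comb n _ _ _ = _
    rw [ih, e2, e3]
    exact comb_one_false n

/-- Out of range. -/
theorem XX_out (n : ℕ) (U : Set ℤ) (τ : Bool)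
    (h : ∀ i : ℤ, 1 ≤ i → i ≤ 2 ^ (n + 1) - 1 → i ∉ U) : XX n U τ = 1 := by
  rw [← XX_empty n τ]
  exact XX_congr n _ _ τ (fun i h1 h2 => by simp [h i h1 h2])

/-- The group generated by the single sites. -/
noncomputable def Gen (n : ℕ) : Subgroup (seq n).P :=
  Subgroup.closure {g | ∃ (i : ℤ) (τ : Bool), g = XX n {i} τ}

theorem XX_mem_Gen (n : ℕ) (i : ℤ) (τ : Bool) : XX n {i} τ ∈ Gen n :=
  Subgroup.subset_closure ⟨i, τ, rfl⟩

/-- Evaluation at the window `n` in position `0`. -/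
noncomputable def ev (n : ℕ) : Fn →* (seq n).P :=
  (Pi.evalMonoidHom (fun _ : ℤ => (seq n).P) 0).comp
    (Pi.evalMonoidHom (fun n : ℕ => ℤ → (seq n).P) n)

theorem ev_apply (n : ℕ) (f : Fn) : ev n f = f n 0 := rfl

theorem Gen_le (n : ℕ) : Gen n ≤ SF.map (ev n) := by
  unfold Gen
  rw [Subgroup.closure_le]
  rintro g ⟨i, τ, rfl⟩
  by_cases hi : 1 ≤ i ∧ i ≤ 2 ^ (n + 1) - 1
  · refine ⟨xF n i τ, Subgroup.subset_closure ⟨n, i, τ, rfl⟩, ?_⟩
    show XX n (Ul n (i - 0)) τ = XX n {i} τ
    apply XX_congr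
    intro j h1 h2
    rw [sub_zero, Set.mem_singleton_iff]
    constructor
    · intro h
      have h3 : (2 : ℤ) ^ (n + 1) ∣ j - i := h
      have h4 : j - i = 0 := by
        apply Int.eq_zero_of_abs_lt_dvd h3
        rw [abs_lt]
        constructor <;> linarith [hi.1, hi.2]
      linarith
    · rintro rfl
      show (2 : ℤ) ^ (n + 1) ∣ j - j
      simp
  · have : XX n {i} τ = 1 := by
      apply XX_out
      intro j h1 h2 h3
      rw [Set.mem_singleton_iff] at h3
      subst h3
      exact hi ⟨h1, h2⟩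
    rw [this]
    exact Subgroup.one_mem _

theorem il_left_gen (n : ℕ) {u : (seq n).P} (hu : u ∈ Gen n) :
    (seq n).il n (u, 1) ∈ Gen (n + 1) := by
  have hle : Gen n ≤ (Gen (n + 1)).comap (((seq n).il n).comp (MonoidHom.inl _ _)) := by
    unfold Gen
    rw [Subgroup.closure_le]
    rintro g ⟨i, τ, rfl⟩
    show (seq n).il n (XX n {i} τ, 1) ∈ Gen (n + 1)
    by_cases hi : 1 ≤ i ∧ i ≤ 2 ^ (n + 1) - 1
    · have e2 : XX n {j | j + 2 ^ (n + 1) ∈ ({i} : Set ℤ)} τ = 1 := by
        apply XX_out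
        intro j h1 h2 h3
        have h4 : j + 2 ^ (n + 1) = i := h3
        linarith [hi.2]
      have e3 : ((2 : ℤ) ^ (n + 1) ∈ ({i} : Set ℤ) ∧ τ = false) ↔ False := by
        simp only [iff_false, not_and]
        intro h
        rw [Set.mem_singleton_iff] at h
        linarith [hi.2]
      have e : XX (n + 1) {i} τ = (seq n).il n (XX n {i} τ, 1) := by
        show (seq n).comb n _ _ _ = _
        rw [e2, e3]
        have h : (seq n).il n (1, 1) = 1 := map_one _
        have h2 : (seq n).xp n False = 1 := if_neg not_false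
        unfold Win.comb
        rw [h, h2]
        simp
      rw [← e]
      exact XX_mem_Gen (n + 1) i τ
    · have : XX n {i} τ = 1 := by
        apply XX_out
        intro j h1 h2 h3
        rw [Set.mem_singleton_iff] at h3
        subst h3
        exact hi ⟨h1, h2⟩
      rw [this]
      have h : (seq n).il n (1, 1) = 1 := map_one _
      rw [h]
      exact Subgroup.one_mem _
  exact hle hu

theorem il_right_gen (n : ℕ) {u : (seq n).P} (hu : u ∈ Gen n) :
    (seq n).il n (1, u) ∈ Gen (n + 1) := by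
  have hle : Gen n ≤ (Gen (n + 1)).comap (((seq n).il n).comp (MonoidHom.inr _ _)) := by
    unfold Gen
    rw [Subgroup.closure_le]
    rintro g ⟨i, τ, rfl⟩
    show (seq n).il n (1, XX n {i} τ) ∈ Gen (n + 1)
    by_cases hi : 1 ≤ i ∧ i ≤ 2 ^ (n + 1) - 1
    · have e1 : XX n {i + 2 ^ (n + 1)} τ = 1 := by
        apply XX_out
        intro j h1 h2 h3
        rw [Set.mem_singleton_iff] at h3
        linarith [hi.1]
      have e2 : XX n {j | j + 2 ^ (n + 1) ∈ ({i + 2 ^ (n + 1)} : Set ℤ)} τ = XX n {i} τ := by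
        apply XX_congr
        intro j h1 h2
        show j + 2 ^ (n + 1) = i + 2 ^ (n + 1) ↔ j = i
        constructor <;> intro h <;> linarith
      have e3 : ((2 : ℤ) ^ (n + 1) ∈ ({i + 2 ^ (n + 1)} : Set ℤ) ∧ τ = false) ↔ False := by
        simp only [iff_false, not_and]
        intro h
        rw [Set.mem_singleton_iff] at h
        linarith [hi.1]
      have e : XX (n + 1) {i + 2 ^ (n + 1)} τ = (seq n).il n (1, XX n {i} τ) := by
        show (seq n).comb n _ _ _ = _
        rw [e1, e2, e3]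
        have h : (seq n).il n (1, 1) = 1 := map_one _
        have h2 : (seq n).xp n False = 1 := if_neg not_false
        unfold Win.comb
        rw [h, h2]
        simp
      rw [← e]
      exact XX_mem_Gen (n + 1) _ τ
    · have : XX n {i} τ = 1 := by
        apply XX_out
        intro j h1 h2 h3
        rw [Set.mem_singleton_iff] at h3
        subst h3
        exact hi ⟨h1, h2⟩
      rw [this]
      have h : (seq n).il n (1, 1) = 1 := map_one _
      rw [h]
      exact Subgroup.one_mem _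
  exact hle hu

theorem xg_gen (n : ℕ) : (seq n).xg n ∈ Gen (n + 1) := by
  have hp : (1 : ℤ) ≤ 2 ^ (n + 1) := one_le_pow₀ (by norm_num)
  have e1 : XX n {(2 : ℤ) ^ (n + 1)} false = 1 := by
    apply XX_out
    intro j h1 h2 h3
    rw [Set.mem_singleton_iff] at h3
    linarith
  have e2 : XX n {j | j + 2 ^ (n + 1) ∈ ({(2 : ℤ) ^ (n + 1)} : Set ℤ)} false = 1 := by
    apply XX_out
    intro j h1 h2 h3
    have h4 : j + 2 ^ (n + 1) = 2 ^ (n + 1) := h3
    linarith
  have e3 : ((2 : ℤ) ^ (n + 1) ∈ ({(2 : ℤ) ^ (n + 1)} : Set ℤ) ∧ false = false) ↔ True := by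
    simp
  have e : XX (n + 1) {(2 : ℤ) ^ (n + 1)} false = (seq n).xg n := by
    show (seq n).comb n _ _ _ = _
    rw [e1, e2, e3]
    have h : (seq n).il n (1, 1) = 1 := map_one _
    have h2 : (seq n).xp n True = (seq n).xg n := if_pos trivial
    unfold Win.comb
    rw [h, h2]
    simp
  rw [← e]
  exact XX_mem_Gen (n + 1) _ false

theorem gg_gen (n : ℕ) (hk : (seq n).k ∈ Gen n) (hk' : (seq n).k' ∈ Gen n) :
    (seq n).gg n ∈ Gen (n + 1) := by
  have e : (seq n).gg n = ((seq n).il n ((seq n).k, 1) * (seq n).il n (1, (seq n).k'))⁻¹ := by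
    rw [← map_mul, ← map_inv]
    simp [Win.gg]
  rw [e]
  exact Subgroup.inv_mem _ (Subgroup.mul_mem _ (il_left_gen n hk) (il_right_gen n hk'))

theorem yy_gen (n : ℕ) (hk : (seq n).k ∈ Gen n) (hk' : (seq n).k' ∈ Gen n) :
    (seq n).yy n ∈ Gen (n + 1) := by
  have hg := gg_gen n hk hk'
  have hx := xg_gen n
  exact Subgroup.mul_mem _ hx (Subgroup.mul_mem _ (Subgroup.mul_mem _ hg hx)
    (Subgroup.inv_mem _ hg))

theorem k_gen (n : ℕ) : (seq n).k ∈ Gen n ∧ (seq n).k' ∈ Gen n := by
  induction n with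
  | zero =>
    constructor
    · have e : XX 0 {(1 : ℤ)} false = (seq 0).k := (if_pos (Set.mem_singleton _)).trans (if_neg (by simp))
      rw [← e]
      exact XX_mem_Gen 0 1 false
    · have e : XX 0 {(1 : ℤ)} true = (seq 0).k' := (if_pos (Set.mem_singleton _)).trans (if_pos rfl)
      rw [← e]
      exact XX_mem_Gen 0 1 true
  | succ n ih =>
    have h := yy_gen n ih.1 ih.2
    exact ⟨Subgroup.pow_mem _ h 3, Subgroup.pow_mem _ h 6⟩

/-- Iterated commutators. -/
noncomputable def zz (n : ℕ) : ℕ → (seq n).NP n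
  | 0 => (seq n).yy n
  | i + 1 => ⁅zz n i, (seq n).xg n⁆

theorem zz_gam (n i : ℕ) : zz n i ∈ gam (Gen (n + 1)) i := by
  induction i with
  | zero => exact yy_gen n (k_gen n).1 (k_gen n).2
  | succ i ih => exact Subgroup.commutator_mem_commutator ih (xg_gen n)

theorem zz_val (n i : ℕ) : (zz n i).right = 1 ∧
    (zz n i).left 1 = r (2 ^ i : ZMod (2 ^ (n + 4))) := by
  induction i with
  | zero => exact ⟨(seq n).yy_right n, by rw [pow_zero]; exact (seq n).yy_left_one n⟩
  | succ i ih =>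
    obtain ⟨h1, h2⟩ := ih
    have e : zz n (i + 1) = zz n i * (seq n).xg n * (zz n i)⁻¹ * ((seq n).xg n)⁻¹ := rfl
    constructor
    · rw [e]
      simp only [RegularWreathProduct.mul_right, RegularWreathProduct.inv_right, h1,
        (seq n).xg_right n]
      simp
    · rw [e]
      simp only [(seq n).mul_left' n, RegularWreathProduct.mul_right,
        RegularWreathProduct.inv_right, RegularWreathProduct.inv_left, Pi.inv_apply, h1,
        (seq n).xg_right n, inv_one, mul_one]
      rw [h2, (seq n).xg_left n, (seq n).xv_at_one n]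
      simp only [inv_r, inv_sr, r_mul_sr, sr_mul_r, sr_mul_sr]
      congr 1
      ring

theorem zz_ne (n : ℕ) : zz n n ≠ 1 := by
  intro h
  have h1 := (zz_val n n).2
  rw [h] at h1
  have h2 : (r 0 : Dih n) = r (2 ^ n : ZMod (2 ^ (n + 4))) := h1
  have h3 : (0 : ZMod (2 ^ (n + 4))) = 2 ^ n := DihedralGroup.r.inj h2
  have h4 : ((2 ^ n : ℕ) : ZMod (2 ^ (n + 4))) = 0 := by
    push_cast
    exact h3.symm
  rw [ZMod.natCast_eq_zero_iff] at h4
  have h5 := Nat.le_of_dvd (by positivity) h4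
  have h6 : 2 ^ n < 2 ^ (n + 4) := Nat.pow_lt_pow_right (by norm_num) (by omega)
  omega

theorem SF_nonnilp (c : ℕ) : gam SF c ≠ ⊥ := by
  intro h
  have h1 : (gam SF c).map (ev (c + 1)) = ⊥ := by rw [h, Subgroup.map_bot]
  rw [gam_map'] at h1
  have h2 : gam (Gen (c + 1)) c ≤ gam (SF.map (ev (c + 1))) c := gam_monoNN (Gen_le (c + 1)) c
  rw [h1] at h2
  exact zz_ne c (Subgroup.mem_bot.1 (h2 (zz_gam c c)))

end Pool.Agent.Helper11.WeakMax
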