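import Pool.Agent.Helper11.WeakMax.D
import Pool.Agent.Helper11.WeakMax.Amb

/-!
# Restriction of a system to the subgroup it generates
-/

set_option autoImplicit false

namespace Pool.Agent.Helper11.WeakMax

open scoped commutatorElement

namespace Sys

variable {G : Type*} [Group G] (s : Sys G)

/-- The group generated by the system. -/
def grp : Subgroup G := s.S ⊔ Subgroup.zpowers s.y

theorem x_mem_grp (m : ℕ) (r : ℤ) (τ : Bool) : s.x m r τ ∈ s.grp :=
  (le_sup_left : s.S ≤ s.grp) (s.x_mem_S m r τ)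

theorem y_mem_grp : s.y ∈ s.grp :=
  (le_sup_right : Subgroup.zpowers s.y ≤ s.grp) (Subgroup.mem_zpowers _)

/-- The restricted system. -/
def res : Sys s.grp where
  x m r τ := ⟨s.x m r τ, s.x_mem_grp m r τ⟩
  y := ⟨s.y, s.y_mem_grp⟩
  split m r τ := Subtype.ext (s.split m r τ)
  per m r τ := Subtype.ext (s.per m r τ)
  inv m r τ := Subtype.ext (s.inv m r τ)
  far m r r' τ τ' h1 h2 := Subtype.ext (s.far m r r' τ τ' h1 h2)
  shift m r τ := Subtype.ext (s.shift m r τ)

theorem res_lvl (m : ℕ) : (s.res.lvl m).map s.grp.subtype = s.lvl m := by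
  unfold Sys.lvl
  rw [MonoidHom.map_closure]
  congr 1
  ext g
  constructor
  · rintro ⟨_, ⟨r, τ, rfl⟩, rfl⟩
    exact ⟨r, τ, rfl⟩
  · rintro ⟨r, τ, rfl⟩
    exact ⟨_, ⟨r, τ, rfl⟩, rfl⟩

theorem res_S : s.res.S.map s.grp.subtype = s.S := by
  unfold Sys.S
  rw [MonoidHom.map_closure]
  congr 1
  ext g
  constructor
  · rintro ⟨_, ⟨m, r, τ, rfl⟩, rfl⟩
    exact ⟨m, r, τ, rfl⟩
  · rintro ⟨m, r, τ, rfl⟩
    exact ⟨_, ⟨m, r, τ, rfl⟩, rfl⟩

theorem res_gen : s.res.S ⊔ Subgroup.zpowers s.res.y = ⊤ := by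
  apply Subgroup.map_injective s.grp.subtype_injective
  rw [Subgroup.map_sup, res_S, MonoidHom.map_zpowers, ← MonoidHom.range_eq_map,
    Subgroup.range_subtype]
  rfl

end Sys

theorem hasExample' {A : Type} [Group A] (s : Sys A) (hfin : ∀ m, Finite (s.lvl m))
    (hp : ∀ m, IsPGroup 2 (s.lvl m)) (hne : ∀ n, gam s.S n ≠ ⊥) :
    ∃ (Q : Type) (_ : Group Q),
      Nontrivial Q ∧
      (∀ t : Finset Q, Group.IsNilpotent (Subgroup.closure (t : Set Q))) ∧
      Subgroup.center Q = ⊥ ∧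
      (∀ f : ℕ → Subgroup Q, (∀ n, (f n).Normal) → Monotone f →
        ∃ n₀ : ℕ, ∀ n, n₀ ≤ n → ((f n).subgroupOf (f (n + 1))).index ≠ 0) := by
  have key : ∀ m, ∀ g : s.res.lvl m, ((g : s.grp) : A) ∈ s.lvl m := by
    intro m g
    rw [← s.res_lvl m]
    exact ⟨g, g.2, rfl⟩
  apply hasExample s.res
  · intro m
    have := hfin m
    refine Finite.of_injective (fun g : s.res.lvl m => (⟨((g : s.grp) : A), key m g⟩ : s.lvl m)) ?_
    intro g h hgh
    have h2 : (((g : s.grp) : A)) = ((h : s.grp) : A) :=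
      congrArg (fun x : s.lvl m => (x : A)) hgh
    exact Subtype.ext (Subtype.ext h2)
  · intro m g
    obtain ⟨k, hk⟩ := hp m ⟨((g : s.grp) : A), key m g⟩
    refine ⟨k, ?_⟩
    apply Subtype.ext
    apply Subtype.ext
    have h2 := congrArg (fun x : s.lvl m => (x : A)) hk
    exact h2
  · exact s.res_gen
  · intro n h
    apply hne n
    rw [← s.res_S, gam_map, h, Subgroup.map_bot]

end Pool.Agent.Helper11.WeakMax
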