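import Mathlib

/-!
# Windows: the recursive wreath construction

`Win` is a finite 2-group `P` with subgroups `A, B, U` and elements `k, k'` with
`k ∉ AUBUA`, `k' ∉ BUAUB`, `AkA ∩ Bk'B = ∅`.  `Win.step` builds a new window inside
`D ≀ (P × P)`, `D` dihedral.
-/

set_option autoImplicit false

namespace Pool.Agent.Helper11.WeakMax

open DihedralGroup

structure Win where
  P : Type
  [grp : Group P]
  [fin : Finite P]
  isp : IsPGroup 2 P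
  A : Subgroup P
  B : Subgroup P
  U : Subgroup P
  k : P
  k' : P
  n1 : ∀ a₁ ∈ A, ∀ u₁ ∈ U, ∀ b ∈ B, ∀ u₂ ∈ U, ∀ a₂ ∈ A, a₁ * u₁ * b * u₂ * a₂ ≠ k
  n2 : ∀ b₁ ∈ B, ∀ u₁ ∈ U, ∀ a ∈ A, ∀ u₂ ∈ U, ∀ b₂ ∈ B, b₁ * u₁ * a * u₂ * b₂ ≠ k'
  n3 : ∀ a₁ ∈ A, ∀ a₂ ∈ A, ∀ b₁ ∈ B, ∀ b₂ ∈ B, a₁ * k * a₂ ≠ b₁ * k' * b₂

namespace Win

attribute [instance] Win.grp Win.fin

/-! ### Dihedral letters -/

/-- The dihedral group used at step `j`. -/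
abbrev Dih (j : ℕ) : Type := DihedralGroup (2 ^ (j + 4))

/-- Letters. -/
def Let {N : ℕ} (d : DihedralGroup N) : Prop := d = 1 ∨ d = sr 0 ∨ d = sr 1

/-- Reduction modulo 16. -/
def red (j : ℕ) : Dih j →* DihedralGroup 16 where
  toFun d := match d with
    | r i => r (ZMod.castHom (show 16 ∣ 2 ^ (j + 4) from ⟨2 ^ j, by rw [pow_add]; ring⟩) (ZMod 16) i)
    | sr i => sr (ZMod.castHom (show 16 ∣ 2 ^ (j + 4) from ⟨2 ^ j, by rw [pow_add]; ring⟩) (ZMod 16) i)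
  map_one' := by
    simp only [DihedralGroup.one_def]
    simp
  map_mul' a b := by
    rcases a with i | i <;> rcases b with l | l <;>
      simp only [DihedralGroup.r_mul_r, DihedralGroup.r_mul_sr, DihedralGroup.sr_mul_r,
        DihedralGroup.sr_mul_sr, map_add, map_sub]

theorem red_r (j : ℕ) (i : ZMod (2 ^ (j + 4))) : red j (r i) =
    r (ZMod.castHom (show 16 ∣ 2 ^ (j + 4) from ⟨2 ^ j, by rw [pow_add]; ring⟩) (ZMod 16) i) := rfl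

theorem red_sr (j : ℕ) (i : ZMod (2 ^ (j + 4))) : red j (sr i) =
    sr (ZMod.castHom (show 16 ∣ 2 ^ (j + 4) from ⟨2 ^ j, by rw [pow_add]; ring⟩) (ZMod 16) i) := rfl

theorem Let.red {j : ℕ} {d : Dih j} (h : Let d) : Let (red j d) := by
  rcases h with h | h | h
  · left; rw [h, map_one]
  · right; left; rw [h, red_sr, map_zero]
  · right; right; rw [h, red_sr, map_one]

/-- The list of letters. -/
def L16 : List (DihedralGroup 16) := [1, sr 0, sr 1]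

theorem Let.mem {d : DihedralGroup 16} (h : Let d) : d ∈ L16 := by
  rcases h with h | h | h <;> simp [L16, h]

theorem five_aux : ∀ l₁ ∈ L16, ∀ l₂ ∈ L16, ∀ l₃ ∈ L16, ∀ l₄ ∈ L16, ∀ l₅ ∈ L16,
    l₁ * l₂ * l₃ * l₄ * l₅ ≠ (r 1) ^ 3 ∧ l₁ * l₂ * l₃ * l₄ * l₅ ≠ (r 1) ^ 6 := by
  decide +kernel

theorem six_aux : ∀ l₁ ∈ L16, ∀ l₂ ∈ L16, ∀ l₃ ∈ L16, ∀ l₄ ∈ L16, ∀ c ∈ L16, ∀ d ∈ L16,
    l₁ * (r 1) ^ 3 * l₂ ≠ l₃ * (c * d) ^ 6 * l₄ := by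
  decide +kernel

theorem five {j : ℕ} {l₁ l₂ l₃ l₄ l₅ : Dih j} (h₁ : Let l₁) (h₂ : Let l₂) (h₃ : Let l₃)
    (h₄ : Let l₄) (h₅ : Let l₅) :
    l₁ * l₂ * l₃ * l₄ * l₅ ≠ (r 1) ^ 3 ∧ l₁ * l₂ * l₃ * l₄ * l₅ ≠ (r 1) ^ 6 := by
  have := five_aux _ h₁.red.mem _ h₂.red.mem _ h₃.red.mem _ h₄.red.mem _ h₅.red.mem
  constructor
  · intro h
    apply this.1
    have := congrArg (red j) h
    simpa only [map_mul, map_pow, red_r, map_one] using this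
  · intro h
    apply this.2
    have := congrArg (red j) h
    simpa only [map_mul, map_pow, red_r, map_one] using this

theorem six {j : ℕ} {l₁ l₂ l₃ l₄ c d : Dih j} (h₁ : Let l₁) (h₂ : Let l₂) (h₃ : Let l₃)
    (h₄ : Let l₄) (hc : Let c) (hd : Let d) :
    l₁ * (r 1) ^ 3 * l₂ ≠ l₃ * (c * d) ^ 6 * l₄ := by
  have := six_aux _ h₁.red.mem _ h₂.red.mem _ h₃.red.mem _ h₄.red.mem _ hc.red.mem _ hd.red.mem
  intro h
  apply this
  have := congrArg (red j) h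
  simpa only [map_mul, map_pow, red_r, map_one] using this

/-- The two-element subgroup `{1, sr i}`. -/
def two {N : ℕ} (i : ZMod N) : Subgroup (DihedralGroup N) where
  carrier := {d | d = 1 ∨ d = sr i}
  mul_mem' := by
    rintro a b (rfl | rfl) (rfl | rfl) <;> simp
  one_mem' := Or.inl rfl
  inv_mem' := by
    rintro a (rfl | rfl) <;> simp

/-! ### The step -/

section Step

variable (w : Win) (j : ℕ)

/-- Index set of the wreath product. -/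
abbrev Sg : Type := w.P × w.P

/-- The new group. -/
abbrev NP : Type := RegularWreathProduct (Dih j) (w.P × w.P)

open Classical in
/-- The values of the centre generator. -/
noncomputable def xv (σ : w.P × w.P) : Dih j :=
  if σ.1 ∈ w.A ∧ σ.2 ∈ w.B then sr 0
  else if σ.1 * w.k⁻¹ ∈ w.A ∧ σ.2 * w.k'⁻¹ ∈ w.B then sr 1 else 1

/-- The centre generator. -/
noncomputable def xg : w.NP j := ⟨w.xv j, 1⟩

theorem xv_let (σ : w.P × w.P) : Let (w.xv j σ) := by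
  unfold xv
  split_ifs
  · right; left; rfl
  · right; right; rfl
  · left; rfl

theorem sr_ne_one (i : ZMod (2 ^ (j + 4))) : (sr i : Dih j) ≠ 1 := by
  intro h
  rw [DihedralGroup.one_def] at h
  cases h

theorem sr_zero_ne : (sr 0 : Dih j) ≠ sr 1 := by
  intro h
  have h2 : (0 : ZMod (2 ^ (j + 4))) = 1 := by
    simpa using h
  have : Fact (1 < 2 ^ (j + 4)) := ⟨Nat.one_lt_two_pow (by omega)⟩
  exact zero_ne_one h2

theorem xv_zero {σ : w.P × w.P} (h : w.xv j σ = sr 0) : σ.1 ∈ w.A ∧ σ.2 ∈ w.B := by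
  unfold xv at h
  split_ifs at h with h1 h2
  · exact h1
  · exact absurd h.symm (sr_zero_ne j)
  · exact absurd h.symm (sr_ne_one j 0)

theorem xv_one {σ : w.P × w.P} (h : w.xv j σ = sr 1) :
    σ.1 * w.k⁻¹ ∈ w.A ∧ σ.2 * w.k'⁻¹ ∈ w.B := by
  unfold xv at h
  split_ifs at h with h1 h2
  · exact absurd h (sr_zero_ne j)
  · exact h2
  · exact absurd h.symm (sr_ne_one j 1)

theorem xv_inv {a b : w.P} (ha : a ∈ w.A) (hb : b ∈ w.B) (σ : w.P × w.P) :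
    w.xv j ((a, b) * σ) = w.xv j σ := by
  unfold xv
  have e1 : (((a, b) * σ).1 ∈ w.A ∧ ((a, b) * σ).2 ∈ w.B) ↔ (σ.1 ∈ w.A ∧ σ.2 ∈ w.B) := by
    simp only [Prod.fst_mul, Prod.snd_mul]
    rw [Subgroup.mul_mem_cancel_left _ ha, Subgroup.mul_mem_cancel_left _ hb]
  have e2 : (((a, b) * σ).1 * w.k⁻¹ ∈ w.A ∧ ((a, b) * σ).2 * w.k'⁻¹ ∈ w.B) ↔
      (σ.1 * w.k⁻¹ ∈ w.A ∧ σ.2 * w.k'⁻¹ ∈ w.B) := by
    simp only [Prod.fst_mul, Prod.snd_mul, mul_assoc]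
    rw [Subgroup.mul_mem_cancel_left _ ha, Subgroup.mul_mem_cancel_left _ hb]
  by_cases h1 : σ.1 ∈ w.A ∧ σ.2 ∈ w.B
  · rw [if_pos h1, if_pos (e1.2 h1)]
  · rw [if_neg h1, if_neg (fun h => h1 (e1.1 h))]
    by_cases h2 : σ.1 * w.k⁻¹ ∈ w.A ∧ σ.2 * w.k'⁻¹ ∈ w.B
    · rw [if_pos h2, if_pos (e2.2 h2)]
    · rw [if_neg h2, if_neg (fun h => h2 (e2.1 h))]

/-- Possible values at `σ`. -/
def Zs (𝒢 : Set (w.P × w.P)) (σ : w.P × w.P) : Subgroup (Dih j) :=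
  Subgroup.closure {d | ∃ g ∈ 𝒢, d = w.xv j (g⁻¹ * σ)}

theorem Zs_mul {𝒢 : Set (w.P × w.P)} {q : w.P × w.P} (hq : ∀ g ∈ 𝒢, q * g ∈ 𝒢)
    (σ : w.P × w.P) : w.Zs j 𝒢 (q⁻¹ * σ) ≤ w.Zs j 𝒢 σ := by
  unfold Zs
  rw [Subgroup.closure_le]
  rintro d ⟨g, hg, rfl⟩
  apply Subgroup.subset_closure
  refine ⟨q * g, hq g hg, ?_⟩
  rw [mul_inv_rev, mul_assoc]

/-- The subgroup of the wreath product with top part in `Q` and values in `Zs`. -/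
def HH (Q : Subgroup (w.P × w.P)) (𝒢 : Set (w.P × w.P))
    (hQ : ∀ q ∈ Q, ∀ g ∈ 𝒢, q * g ∈ 𝒢) : Subgroup (w.NP j) where
  carrier := {f | f.right ∈ Q ∧ ∀ σ, f.left σ ∈ w.Zs j 𝒢 σ}
  mul_mem' := by
    rintro f g ⟨hf1, hf2⟩ ⟨hg1, hg2⟩
    refine ⟨Q.mul_mem hf1 hg1, fun σ => ?_⟩
    rw [RegularWreathProduct.mul_left]
    exact (w.Zs j 𝒢 σ).mul_mem (hf2 σ) (w.Zs_mul j (hQ _ hf1) σ (hg2 _))
  one_mem' := ⟨Q.one_mem, fun σ => (w.Zs j 𝒢 σ).one_mem⟩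
  inv_mem' := by
    rintro f ⟨hf1, hf2⟩
    refine ⟨Q.inv_mem hf1, fun σ => ?_⟩
    rw [RegularWreathProduct.inv_left]
    apply (w.Zs j 𝒢 σ).inv_mem
    have := w.Zs_mul j (hQ _ (Q.inv_mem hf1)) σ
    rw [inv_inv] at this
    exact this (hf2 _)

/-- `𝒢` does not mix the two letters. -/
def Unm (𝒢 : Set (w.P × w.P)) : Prop :=
  ∀ σ : w.P × w.P, ∀ g ∈ 𝒢, ∀ g' ∈ 𝒢, w.xv j (g⁻¹ * σ) = sr 0 → w.xv j (g'⁻¹ * σ) = sr 1 → False

theorem Zs_let {𝒢 : Set (w.P × w.P)} (h : w.Unm j 𝒢) {σ : w.P × w.P} {d : Dih j}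
    (hd : d ∈ w.Zs j 𝒢 σ) : Let d := by
  by_cases h0 : ∃ g ∈ 𝒢, w.xv j (g⁻¹ * σ) = sr 0
  · obtain ⟨g, hg, hg0⟩ := h0
    have : w.Zs j 𝒢 σ ≤ two 0 := by
      unfold Zs
      rw [Subgroup.closure_le]
      rintro d ⟨g', hg', rfl⟩
      rcases w.xv_let j (g'⁻¹ * σ) with h1 | h1 | h1
      · exact Or.inl h1
      · exact Or.inr h1
      · exact (h σ g hg g' hg' hg0 h1).elim
    rcases this hd with h1 | h1
    · exact Or.inl h1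
    · exact Or.inr (Or.inl h1)
  · have : w.Zs j 𝒢 σ ≤ two 1 := by
      unfold Zs
      rw [Subgroup.closure_le]
      rintro d ⟨g', hg', rfl⟩
      rcases w.xv_let j (g'⁻¹ * σ) with h1 | h1 | h1
      · exact Or.inl h1
      · exact (h0 ⟨g', hg', h1⟩).elim
      · exact Or.inr h1
    rcases this hd with h1 | h1
    · exact Or.inl h1
    · exact Or.inr (Or.inr h1)

/-- `Q · diag(T)`. -/
def QD (Q : Subgroup (w.P × w.P)) (T : Subgroup w.P) : Set (w.P × w.P) :=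
  {g | ∃ q ∈ Q, ∃ u ∈ T, g = q * (u, u)}

theorem QD_mul (Q : Subgroup (w.P × w.P)) (T : Subgroup w.P) :
    ∀ q ∈ Q, ∀ g ∈ w.QD Q T, q * g ∈ w.QD Q T := by
  rintro q hq g ⟨q', hq', u, hu, rfl⟩
  exact ⟨q * q', Q.mul_mem hq hq', u, hu, by rw [mul_assoc]⟩

/-- diagonal. -/
def dg : w.P →* w.P × w.P := (MonoidHom.id w.P).prod (MonoidHom.id w.P)

theorem dg_apply (v : w.P) : w.dg v = (v, v) := rfl

theorem unm_A : w.Unm j (w.QD ((⊤ : Subgroup w.P).prod w.A) w.U) := by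
  rintro σ g ⟨q, hq, u, hu, rfl⟩ g' ⟨q', hq', u', hu', rfl⟩ h0 h1
  have e0 := (w.xv_zero j h0).2
  have e1 := (w.xv_one j h1).2
  simp only [mul_inv_rev, Prod.snd_mul, Prod.snd_inv] at e0 e1
  have hq2 := hq.2
  have hq2' := hq'.2
  -- σ.2 = q.2 * u * b₁, σ.2 = q'.2 * u' * b₂ * k'
  set b₁ := u⁻¹ * q.2⁻¹ * σ.2 with hb1
  set b₂ := u'⁻¹ * q'.2⁻¹ * σ.2 * w.k'⁻¹ with hb2
  refine w.n2 b₂⁻¹ (w.B.inv_mem e1) u'⁻¹ (w.U.inv_mem hu') (q'.2⁻¹ * q.2)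
    (w.A.mul_mem (w.A.inv_mem hq2') hq2) u hu b₁ e0 ?_
  rw [hb1, hb2]
  group

theorem unm_B : w.Unm j (w.QD (w.B.prod (⊤ : Subgroup w.P)) w.U) := by
  rintro σ g ⟨q, hq, u, hu, rfl⟩ g' ⟨q', hq', u', hu', rfl⟩ h0 h1
  have e0 := (w.xv_zero j h0).1
  have e1 := (w.xv_one j h1).1
  simp only [mul_inv_rev, Prod.fst_mul, Prod.fst_inv] at e0 e1
  have hq2 := hq.1
  have hq2' := hq'.1
  set b₁ := u⁻¹ * q.1⁻¹ * σ.1 with hb1
  set b₂ := u'⁻¹ * q'.1⁻¹ * σ.1 * w.k⁻¹ with hb2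
  refine w.n1 b₂⁻¹ (w.A.inv_mem e1) u'⁻¹ (w.U.inv_mem hu') (q'.1⁻¹ * q.1)
    (w.B.mul_mem (w.B.inv_mem hq2') hq2) u hu b₁ e0 ?_
  rw [hb1, hb2]
  group

theorem unm_U : w.Unm j (w.QD (w.dg.range) ⊤) := by
  rintro σ g ⟨q, ⟨v, rfl⟩, u, -, rfl⟩ g' ⟨q', ⟨v', rfl⟩, u', -, rfl⟩ h0 h1
  obtain ⟨e0, e0'⟩ := w.xv_zero j h0
  obtain ⟨e1, e1'⟩ := w.xv_one j h1
  simp only [mul_inv_rev, Prod.snd_mul, Prod.snd_inv, Prod.fst_mul, Prod.fst_inv, dg_apply]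
    at e0 e1 e0' e1'
  refine w.n3 _ e1 _ (w.A.inv_mem e0) _ e1' _ (w.B.inv_mem e0') ?_
  group

/-- New `A`. -/
def nA : Subgroup (w.NP j) :=
  w.HH j ((⊤ : Subgroup w.P).prod w.A) (w.QD ((⊤ : Subgroup w.P).prod w.A) w.U) (w.QD_mul _ _)

/-- New `B`. -/
def nB : Subgroup (w.NP j) :=
  w.HH j (w.B.prod (⊤ : Subgroup w.P)) (w.QD (w.B.prod (⊤ : Subgroup w.P)) w.U) (w.QD_mul _ _)

/-- New `U`. -/
def nU : Subgroup (w.NP j) :=
  w.HH j (w.dg.range) (w.QD (w.dg.range) ⊤) (w.QD_mul _ _)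

theorem nA_let {f : w.NP j} (hf : f ∈ w.nA j) (σ : w.P × w.P) : Let (f.left σ) :=
  w.Zs_let j (w.unm_A j) (hf.2 σ)

theorem nB_let {f : w.NP j} (hf : f ∈ w.nB j) (σ : w.P × w.P) : Let (f.left σ) :=
  w.Zs_let j (w.unm_B j) (hf.2 σ)

theorem nU_let {f : w.NP j} (hf : f ∈ w.nU j) (σ : w.P × w.P) : Let (f.left σ) :=
  w.Zs_let j (w.unm_U j) (hf.2 σ)

/-- conjugating element. -/
def gg : w.NP j := RegularWreathProduct.inl ((w.k, w.k')⁻¹)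

/-- The conjugate of the centre generator. -/
noncomputable def xg' : w.NP j := w.gg j * w.xg j * (w.gg j)⁻¹

/-- `y = x x'`. -/
noncomputable def yy : w.NP j := w.xg j * w.xg' j

theorem xg_right : (w.xg j).right = 1 := rfl

theorem xg_left (σ : w.P × w.P) : (w.xg j).left σ = w.xv j σ := rfl

theorem xg'_right : (w.xg' j).right = 1 := by
  simp [xg', xg_right]

theorem xg'_left (σ : w.P × w.P) : (w.xg' j).left σ = w.xv j ((w.k, w.k') * σ) := by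
  simp [xg', gg, xg]

theorem yy_right : (w.yy j).right = 1 := by
  simp [yy, xg_right, xg'_right]

theorem yy_left (σ : w.P × w.P) :
    (w.yy j).left σ = w.xv j σ * w.xv j ((w.k, w.k') * σ) := by
  rw [yy, RegularWreathProduct.mul_left, Pi.mul_apply, xg_left, xg'_left, xg_right]
  simp

theorem xv_at_one : w.xv j 1 = sr 0 := by
  unfold xv
  rw [if_pos ⟨w.A.one_mem, w.B.one_mem⟩]

theorem k_notin_A : w.k ∉ w.A := fun h =>
  w.n1 w.k h 1 w.U.one_mem 1 w.B.one_mem 1 w.U.one_mem 1 w.A.one_mem (by simp)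

theorem xv_at_k : w.xv j (w.k, w.k') = sr 1 := by
  unfold xv
  rw [if_neg (fun h => w.k_notin_A h.1), if_pos]
  constructor
  · rw [mul_inv_cancel]; exact w.A.one_mem
  · rw [mul_inv_cancel]; exact w.B.one_mem

theorem yy_left_one : (w.yy j).left 1 = r 1 := by
  rw [yy_left, mul_one, xv_at_one, xv_at_k, sr_mul_sr, sub_zero]

theorem pow_right (f : w.NP j) (hf : f.right = 1) (n : ℕ) : (f ^ n).right = 1 := by
  induction n with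
  | zero => rfl
  | succ n ih => rw [pow_succ, RegularWreathProduct.mul_right, ih, hf, mul_one]

theorem pow_left (f : w.NP j) (hf : f.right = 1) (n : ℕ) (σ : w.P × w.P) :
    (f ^ n).left σ = (f.left σ) ^ n := by
  induction n with
  | zero => rfl
  | succ n ih =>
    rw [pow_succ, RegularWreathProduct.mul_left, Pi.mul_apply, ih, w.pow_right j f hf, inv_one,
      one_mul]
    exact (pow_succ _ _).symm

theorem mul_left' (f g : w.NP j) (σ : w.P × w.P) :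
    (f * g).left σ = f.left σ * g.left (f.right⁻¹ * σ) := rfl

theorem nn1 : ∀ a₁ ∈ w.nA j, ∀ u₁ ∈ w.nU j, ∀ b ∈ w.nB j, ∀ u₂ ∈ w.nU j, ∀ a₂ ∈ w.nA j,
    a₁ * u₁ * b * u₂ * a₂ ≠ (w.yy j) ^ 3 := by
  intro a₁ ha₁ u₁ hu₁ b hb u₂ hu₂ a₂ ha₂ h
  have h1 := congrArg (fun f => f.left 1) h
  simp only [mul_left', w.pow_left j _ (w.yy_right j), w.yy_left_one j] at h1
  exact (five (w.nA_let j ha₁ _) (w.nU_let j hu₁ _) (w.nB_let j hb _) (w.nU_let j hu₂ _)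
    (w.nA_let j ha₂ _)).1 h1

theorem nn2 : ∀ b₁ ∈ w.nB j, ∀ u₁ ∈ w.nU j, ∀ a ∈ w.nA j, ∀ u₂ ∈ w.nU j, ∀ b₂ ∈ w.nB j,
    b₁ * u₁ * a * u₂ * b₂ ≠ (w.yy j) ^ 6 := by
  intro a₁ ha₁ u₁ hu₁ b hb u₂ hu₂ a₂ ha₂ h
  have h1 := congrArg (fun f => f.left 1) h
  simp only [mul_left', w.pow_left j _ (w.yy_right j), w.yy_left_one j] at h1
  exact (five (w.nB_let j ha₁ _) (w.nU_let j hu₁ _) (w.nA_let j hb _) (w.nU_let j hu₂ _)
    (w.nB_let j ha₂ _)).2 h1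

theorem nn3 : ∀ a₁ ∈ w.nA j, ∀ a₂ ∈ w.nA j, ∀ b₁ ∈ w.nB j, ∀ b₂ ∈ w.nB j,
    a₁ * (w.yy j) ^ 3 * a₂ ≠ b₁ * (w.yy j) ^ 6 * b₂ := by
  intro a₁ ha₁ a₂ ha₂ b₁ hb₁ b₂ hb₂ h
  have h1 := congrArg (fun f => f.left a₁.right) h
  simp only [mul_left', w.pow_left j _ (w.yy_right j), inv_mul_cancel, w.yy_left_one j] at h1
  rw [yy_left] at h1
  exact six (w.nA_let j ha₁ _) (w.nA_let j ha₂ _) (w.nB_let j hb₁ _) (w.nB_let j hb₂ _)
    (w.xv_let j _) (w.xv_let j _) h1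

theorem isp_dih : IsPGroup 2 (Dih j) := by
  apply IsPGroup.of_card (n := j + 5)
  rw [DihedralGroup.nat_card]
  ring

theorem isp_NP : IsPGroup 2 (w.NP j) := by
  have : Fact (Nat.Prime 2) := ⟨Nat.prime_two⟩
  obtain ⟨n, hn⟩ := IsPGroup.iff_card.1 w.isp
  obtain ⟨m, hm⟩ := IsPGroup.iff_card.1 (isp_dih j)
  have : Finite w.P := w.fin
  apply IsPGroup.of_card (n := m * (2 ^ n * 2 ^ n) + 2 * n)
  rw [RegularWreathProduct.card, Nat.card_prod, hn, hm, ← pow_mul]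
  ring

/-- The step. -/
noncomputable def step : Win where
  P := w.NP j
  isp := w.isp_NP j
  A := w.nA j
  B := w.nB j
  U := w.nU j
  k := (w.yy j) ^ 3
  k' := (w.yy j) ^ 6
  n1 := w.nn1 j
  n2 := w.nn2 j
  n3 := w.nn3 j

end Step

/-- The base window `C₂ × C₂`. -/
noncomputable def base : Win where
  P := Multiplicative (ZMod 2 × ZMod 2)
  isp := by
    intro g
    refine ⟨1, ?_⟩
    have : ∀ g : ZMod 2 × ZMod 2, 2 • g = 0 := by decide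
    exact this g.toAdd
  A := ⊥
  B := ⊥
  U := ⊥
  k := Multiplicative.ofAdd (1, 0)
  k' := Multiplicative.ofAdd (0, 1)
  n1 := by
    intro a₁ h₁ u₁ h₂ b h₃ u₂ h₄ a₂ h₅
    rw [Subgroup.mem_bot] at h₁ h₂ h₃ h₄ h₅
    subst h₁ h₂ h₃ h₄ h₅
    decide
  n2 := by
    intro a₁ h₁ u₁ h₂ b h₃ u₂ h₄ a₂ h₅
    rw [Subgroup.mem_bot] at h₁ h₂ h₃ h₄ h₅
    subst h₁ h₂ h₃ h₄ h₅
    decide
  n3 := by
    intro a₁ h₁ u₁ h₂ b h₃ u₂ h₄
    rw [Subgroup.mem_bot] at h₁ h₂ h₃ h₄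
    subst h₁ h₂ h₃ h₄
    decide

/-- The sequence of windows. -/
noncomputable def seq : ℕ → Win
  | 0 => base
  | n + 1 => (seq n).step n

end Win

end Pool.Agent.Helper11.WeakMax
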