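import Pool.Agent.Helper11.WeakMax.Win

/-!
# Products over sets of sites

`XX n U τ` is the ordered product, in the window group `(seq n).P`, of the generators of type `τ`
at the sites `i ∈ U`, `1 ≤ i ≤ 2^(n+1) - 1`.
-/

set_option autoImplicit false

namespace Pool.Agent.Helper11.WeakMax

open DihedralGroup

namespace Win

section

variable (w : Win) (j : ℕ)

/-- Abbreviation for the embedding of the top group. -/
abbrev il : w.P × w.P →* w.NP j := RegularWreathProduct.inl

theorem xg_comm {u v : w.P} (hu : u ∈ w.A) (hv : v ∈ w.B) :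
    Commute (w.xg j) (w.il j (u, v)) := by
  apply RegularWreathProduct.ext
  · funext σ
    have := w.xv_inv j (w.A.inv_mem hu) (w.B.inv_mem hv) σ
    simp only [RegularWreathProduct.mul_left, Pi.mul_apply, RegularWreathProduct.left_inl,
      RegularWreathProduct.right_inl, xg_left, Pi.one_apply, mul_one, one_mul]
    exact this.symm
  · simp [xg_right]

theorem xg_sq : w.xg j * w.xg j = 1 := by
  apply RegularWreathProduct.ext
  · funext σ
    simp only [RegularWreathProduct.mul_left, Pi.mul_apply, xg_left, xg_right, inv_one, one_mul,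
      RegularWreathProduct.one_left, Pi.one_apply]
    rcases w.xv_let j σ with h | h | h <;> rw [h] <;> simp
  · simp [xg_right]

/-- Conjugate of the centre generator by the diagonal element `(v,v)`. -/
noncomputable def xc (v : w.P) : w.NP j := w.il j (v, v) * w.xg j * (w.il j (v, v))⁻¹

theorem xc_right (v : w.P) : (w.xc j v).right = 1 := by
  simp [xc, xg_right]

theorem xc_left (v : w.P) (σ : w.P × w.P) :
    (w.xc j v).left σ = w.xv j ((v, v)⁻¹ * σ) := by
  simp [xc, xg]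

theorem let_comm {N : ℕ} {c d : DihedralGroup N} (hc : Let c) (hd : Let d)
    (h : ¬ (c = sr 0 ∧ d = sr 1)) (h' : ¬ (c = sr 1 ∧ d = sr 0)) : c * d = d * c := by
  rcases hc with rfl | rfl | rfl <;> rcases hd with rfl | rfl | rfl <;> simp_all

theorem xc_comm (u v : w.P) : Commute (w.xc j u) (w.xc j v) := by
  apply RegularWreathProduct.ext
  · funext σ
    simp only [RegularWreathProduct.mul_left, Pi.mul_apply, xc_left, xc_right, inv_one, one_mul]
    have hu : ((u, u) : w.P × w.P) ∈ w.QD (w.dg.range) ⊤ := ⟨_, ⟨u, rfl⟩, 1, trivial, by simp [dg_apply]⟩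
    have hv : ((v, v) : w.P × w.P) ∈ w.QD (w.dg.range) ⊤ := ⟨_, ⟨v, rfl⟩, 1, trivial, by simp [dg_apply]⟩
    apply let_comm (w.xv_let j _) (w.xv_let j _)
    · rintro ⟨h0, h1⟩
      exact w.unm_U j σ _ hu _ hv h0 h1
    · rintro ⟨h0, h1⟩
      exact w.unm_U j σ _ hv _ hu h1 h0
  · simp [xc_right]

theorem xc_sq (v : w.P) : w.xc j v * w.xc j v = 1 := by
  have := w.xg_sq j
  calc w.xc j v * w.xc j v = w.il j (v, v) * (w.xg j * w.xg j) * (w.il j (v, v))⁻¹ := by
        unfold xc; group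
    _ = 1 := by rw [this]; group

/-! membership in the new subgroups -/

theorem il_left_mem_nA (u : w.P) : w.il j (u, 1) ∈ w.nA j :=
  ⟨⟨trivial, w.A.one_mem⟩, fun _ => Subgroup.one_mem _⟩

theorem il_right_mem_nA {v : w.P} (hv : v ∈ w.A) : w.il j (1, v) ∈ w.nA j :=
  ⟨⟨trivial, hv⟩, fun _ => Subgroup.one_mem _⟩

theorem il_mem_nA (u : w.P) {v : w.P} (hv : v ∈ w.A) : w.il j (u, v) ∈ w.nA j :=
  ⟨⟨trivial, hv⟩, fun _ => Subgroup.one_mem _⟩

theorem il_mem_nB {u : w.P} (v : w.P) (hu : u ∈ w.B) : w.il j (u, v) ∈ w.nB j :=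
  ⟨⟨hu, trivial⟩, fun _ => Subgroup.one_mem _⟩

theorem il_mem_nU (v : w.P) : w.il j (v, v) ∈ w.nU j :=
  ⟨⟨v, rfl⟩, fun _ => Subgroup.one_mem _⟩

theorem xc_mem_nA {v : w.P} (hv : v ∈ w.U) : w.xc j v ∈ w.nA j := by
  refine ⟨?_, fun σ => ?_⟩
  · rw [xc_right]; exact Subgroup.one_mem _
  · rw [xc_left]
    exact Subgroup.subset_closure ⟨(v, v), ⟨1, Subgroup.one_mem _, v, hv, by simp⟩, rfl⟩

theorem xc_mem_nB {v : w.P} (hv : v ∈ w.U) : w.xc j v ∈ w.nB j := by
  refine ⟨?_, fun σ => ?_⟩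
  · rw [xc_right]; exact Subgroup.one_mem _
  · rw [xc_left]
    exact Subgroup.subset_closure ⟨(v, v), ⟨1, Subgroup.one_mem _, v, hv, by simp⟩, rfl⟩

theorem xc_mem_nU (v : w.P) : w.xc j v ∈ w.nU j := by
  refine ⟨?_, fun σ => ?_⟩
  · rw [xc_right]; exact Subgroup.one_mem _
  · rw [xc_left]
    exact Subgroup.subset_closure ⟨(v, v), ⟨1, Subgroup.one_mem _, v, trivial, by simp⟩, rfl⟩

theorem xc_one : w.xc j 1 = w.xg j := by
  unfold xc
  have : w.il j (1, 1) = 1 := map_one _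
  rw [this]; simp

theorem xg_mem_nA : w.xg j ∈ w.nA j := w.xc_one j ▸ w.xc_mem_nA j w.U.one_mem
theorem xg_mem_nB : w.xg j ∈ w.nB j := w.xc_one j ▸ w.xc_mem_nB j w.U.one_mem
theorem xg_mem_nU : w.xg j ∈ w.nU j := w.xc_one j ▸ w.xc_mem_nU j 1

open Classical in
/-- The power of the centre generator. -/
noncomputable def xp (α : Prop) : w.NP j := if α then w.xg j else 1

/-- Combination of the left copy, centre and right copy. -/
noncomputable def comb (u : w.P) (α : Prop) (v : w.P) : w.NP j :=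
  w.il j (u, 1) * w.xp j α * w.il j (1, v)

theorem xp_mem {H : Subgroup (w.NP j)} (h : w.xg j ∈ H) (α : Prop) : w.xp j α ∈ H := by
  unfold xp
  split_ifs
  · exact h
  · exact H.one_mem

theorem xp_comm {α : Prop} {u v : w.P} (h : α → u ∈ w.A ∧ v ∈ w.B) :
    Commute (w.xp j α) (w.il j (u, v)) := by
  unfold xp
  split_ifs with hα
  · exact w.xg_comm j (h hα).1 (h hα).2
  · exact Commute.one_left _

theorem xp_xp (α β : Prop) : Commute (w.xp j α) (w.xp j β) := by
  unfold xp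
  split_ifs <;> simp

theorem xp_sq (α : Prop) : w.xp j α * w.xp j α = 1 := by
  unfold xp
  split_ifs
  · exact w.xg_sq j
  · simp

theorem xp_or {α β : Prop} (h : ¬ (α ∧ β)) : w.xp j (α ∨ β) = w.xp j α * w.xp j β := by
  unfold xp
  by_cases ha : α <;> by_cases hb : β <;> simp_all

theorem il_comm (u v : w.P) : Commute (w.il j (u, 1)) (w.il j (1, v)) := by
  show w.il j (u, 1) * w.il j (1, v) = w.il j (1, v) * w.il j (u, 1)
  rw [← map_mul, ← map_mul]
  simp

theorem comb_mul {u u' v v' : w.P} {α β : Prop} (h1 : α → v ∈ w.A) (h2 : β → u' ∈ w.B) :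
    w.comb j u α u' * w.comb j v β v' =
      w.il j (u * v, 1) * (w.xp j α * w.xp j β) * w.il j (1, u' * v') := by
  have e1 : Commute (w.xp j α) (w.il j (v, 1)) := w.xp_comm j (fun h => ⟨h1 h, w.B.one_mem⟩)
  have e2 : Commute (w.xp j β) (w.il j (1, u')) := w.xp_comm j (fun h => ⟨w.A.one_mem, h2 h⟩)
  have e3 := w.il_comm j v u'
  have f1 : w.il j (u * v, 1) = w.il j (u, 1) * w.il j (v, 1) := by rw [← map_mul]; simp
  have f2 : w.il j (1, u' * v') = w.il j (1, u') * w.il j (1, v') := by rw [← map_mul]; simp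
  unfold comb
  rw [f1, f2]
  calc w.il j (u, 1) * w.xp j α * w.il j (1, u') * (w.il j (v, 1) * w.xp j β * w.il j (1, v'))
      = w.il j (u, 1) * w.xp j α * (w.il j (1, u') * w.il j (v, 1)) * w.xp j β * w.il j (1, v') := by
        group
    _ = w.il j (u, 1) * (w.xp j α * w.il j (v, 1)) * (w.il j (1, u') * w.xp j β) *
          w.il j (1, v') := by
        rw [← e3.eq]; group
    _ = w.il j (u, 1) * w.il j (v, 1) * (w.xp j α * w.xp j β) * (w.il j (1, u') * w.il j (1, v')) := by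
        rw [e1.eq, ← e2.eq]; group

theorem comb_comm {u u' v v' : w.P} {α β : Prop} (h1 : α → v ∈ w.A) (h2 : β → u' ∈ w.B)
    (h3 : β → u ∈ w.A) (h4 : α → v' ∈ w.B) (h5 : Commute u v) (h6 : Commute u' v') :
    Commute (w.comb j u α u') (w.comb j v β v') := by
  show _ * _ = _ * _
  rw [w.comb_mul j h1 h2, w.comb_mul j h3 h4, h5.eq, h6.eq, (w.xp_xp j α β).eq]

theorem comb_sq {u u' : w.P} {α : Prop} (h1 : α → u ∈ w.A) (h2 : α → u' ∈ w.B)
    (h3 : u * u = 1) (h4 : u' * u' = 1) : w.comb j u α u' * w.comb j u α u' = 1 := by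
  rw [w.comb_mul j h1 h2, h3, h4, w.xp_sq j]
  have : w.il j (1, 1) = 1 := map_one _
  rw [this]; simp

theorem comb_mem_nA {u v : w.P} {α : Prop} (hv : v ∈ w.A) : w.comb j u α v ∈ w.nA j :=
  (w.nA j).mul_mem ((w.nA j).mul_mem (w.il_mem_nA j u w.A.one_mem) (w.xp_mem j (w.xg_mem_nA j) α))
    (w.il_mem_nA j 1 hv)

theorem comb_mem_nB {u v : w.P} {α : Prop} (hu : u ∈ w.B) : w.comb j u α v ∈ w.nB j :=
  (w.nB j).mul_mem ((w.nB j).mul_mem (w.il_mem_nB j 1 hu) (w.xp_mem j (w.xg_mem_nB j) α))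
    (w.il_mem_nB j v w.B.one_mem)

end

end Win

open Win

open Classical in
/-- Product over the set `U` of sites, type `τ`. -/
noncomputable def XX : (n : ℕ) → Set ℤ → Bool → (seq n).P
  | 0, U, τ => if (1 : ℤ) ∈ U then (if τ then base.k' else base.k) else (1 : base.P)
  | n + 1, U, τ => (seq n).comb n (XX n U τ) ((2 : ℤ) ^ (n + 1) ∈ U ∧ τ = false)
      (XX n {i | i + 2 ^ (n + 1) ∈ U} τ)

/-- No element of `U` is adjacent to an element of `V`. -/
def Far (U V : Set ℤ) : Prop := ∀ u ∈ U, ∀ v ∈ V, v ≠ u + 1 ∧ u ≠ v + 1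

theorem Far.symm {U V : Set ℤ} (h : Far U V) : Far V U := fun v hv u hu => (h u hu v hv).symm

theorem Far.shift {U V : Set ℤ} (h : Far U V) (c : ℤ) :
    Far {i | i + c ∈ U} {i | i + c ∈ V} := by
  intro u hu v hv
  have := h _ hu _ hv
  constructor
  · rintro rfl; exact this.1 (by ring)
  · rintro rfl; exact this.2 (by ring)

theorem XX_mem_A (n : ℕ) : ∀ (U : Set ℤ) (τ : Bool), (2 : ℤ) ^ (n + 1) - 1 ∉ U →
    XX n U τ ∈ (seq n).A := by
  induction n with
  | zero =>
    intro U τ h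
    have : (1 : ℤ) ∉ U := by simpa using h
    simp only [XX, if_neg this]
    exact Subgroup.one_mem _
  | succ n ih =>
    intro U τ h
    apply comb_mem_nA
    apply ih
    intro h'
    apply h
    have h'' : (2 : ℤ) ^ (n + 1) - 1 + 2 ^ (n + 1) ∈ U := h'
    have : (2 : ℤ) ^ (n + 1 + 1) - 1 = 2 ^ (n + 1) - 1 + 2 ^ (n + 1) := by ring
    rw [this]; exact h''

theorem XX_mem_B (n : ℕ) : ∀ (U : Set ℤ) (τ : Bool), (1 : ℤ) ∉ U → XX n U τ ∈ (seq n).B := by
  induction n with
  | zero =>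
    intro U τ h
    simp only [XX, if_neg h]
    exact Subgroup.one_mem _
  | succ n ih =>
    intro U τ h
    apply comb_mem_nB
    exact ih U τ h

theorem XX_comm (n : ℕ) : ∀ (U V : Set ℤ) (τ τ' : Bool), Far U V →
    Commute (XX n U τ) (XX n V τ') := by
  induction n with
  | zero =>
    intro U V τ τ' h
    exact mul_comm (G := Multiplicative (ZMod 2 × ZMod 2)) _ _
  | succ n ih =>
    intro U V τ τ' h
    apply comb_comm
    · rintro ⟨h1, -⟩
      apply XX_mem_A
      intro h2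
      exact (h _ h1 _ h2).2 (by ring)
    · rintro ⟨h1, -⟩
      apply XX_mem_B
      intro h2
      exact (h.symm _ h1 _ h2).1 (by ring)
    · rintro ⟨h1, -⟩
      apply XX_mem_A
      intro h2
      exact (h.symm _ h1 _ h2).2 (by ring)
    · rintro ⟨h1, -⟩
      apply XX_mem_B
      intro h2
      exact (h _ h1 _ h2).1 (by ring)
    · exact ih _ _ _ _ h
    · exact ih _ _ _ _ (h.shift _)

theorem XX_sq (n : ℕ) : ∀ (U : Set ℤ) (τ : Bool), Far U U → XX n U τ * XX n U τ = 1 := by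
  induction n with
  | zero =>
    intro U τ h
    have : ∀ g : ZMod 2 × ZMod 2, g + g = 0 := by decide
    exact this (Multiplicative.toAdd (XX 0 U τ : Multiplicative (ZMod 2 × ZMod 2)))
  | succ n ih =>
    intro U τ h
    apply comb_sq
    · rintro ⟨h1, -⟩
      apply XX_mem_A
      intro h2
      exact (h _ h1 _ h2).2 (by ring)
    · rintro ⟨h1, -⟩
      apply XX_mem_B
      intro h2
      exact (h _ h1 _ h2).1 (by ring)
    · exact ih _ _ h
    · exact ih _ _ (h.shift _)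

theorem XX_union (n : ℕ) : ∀ (U V : Set ℤ) (τ : Bool), Far U V → Disjoint U V →
    XX n (U ∪ V) τ = XX n U τ * XX n V τ := by
  induction n with
  | zero =>
    intro U V τ h hd
    by_cases h1 : (1 : ℤ) ∈ U
    · have h2 : (1 : ℤ) ∉ V := fun h2 => Set.disjoint_left.1 hd h1 h2
      have e : XX 0 V τ = 1 := if_neg h2
      have e' : XX 0 (U ∪ V) τ = XX 0 U τ :=
        (if_pos (Or.inl h1 : (1 : ℤ) ∈ U ∪ V)).trans (if_pos h1).symm
      rw [e, e', mul_one]
    · have e : XX 0 U τ = 1 := if_neg h1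
      have e' : XX 0 (U ∪ V) τ = XX 0 V τ := by
        by_cases h2 : (1 : ℤ) ∈ V
        · exact (if_pos (Or.inr h2 : (1 : ℤ) ∈ U ∪ V)).trans (if_pos h2).symm
        · exact (if_neg (fun h => h.elim h1 h2)).trans (if_neg h2).symm
      rw [e, e', one_mul]
  | succ n ih =>
    intro U V τ h hd
    have e1 : XX (n + 1) U τ * XX (n + 1) V τ =
        (seq n).il n (XX n U τ * XX n V τ, 1) *
          ((seq n).xp n ((2 : ℤ) ^ (n + 1) ∈ U ∧ τ = false) *
            (seq n).xp n ((2 : ℤ) ^ (n + 1) ∈ V ∧ τ = false)) *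
          (seq n).il n (1, XX n {i | i + 2 ^ (n + 1) ∈ U} τ * XX n {i | i + 2 ^ (n + 1) ∈ V} τ) := by
      apply (seq n).comb_mul n
      · rintro ⟨h1, -⟩
        apply XX_mem_A
        intro h2
        exact (h _ h1 _ h2).2 (by ring)
      · rintro ⟨h1, -⟩
        apply XX_mem_B
        intro h2
        exact (h.symm _ h1 _ h2).1 (by ring)
    rw [e1, ← ih U V τ h hd, ← ih _ _ τ (h.shift _), ← xp_or]
    · have : ((2 : ℤ) ^ (n + 1) ∈ U ∪ V ∧ τ = false) ↔
        ((2 : ℤ) ^ (n + 1) ∈ U ∧ τ = false ∨ (2 : ℤ) ^ (n + 1) ∈ V ∧ τ = false) := by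
        rw [Set.mem_union]; tauto
      show (seq n).comb n _ _ _ = _
      rw [this]
      rfl
    · rintro ⟨⟨h1, -⟩, ⟨h2, -⟩⟩
      exact Set.disjoint_left.1 hd h1 h2
    · rw [Set.disjoint_left]
      intro a ha hb
      exact Set.disjoint_left.1 hd ha hb

end Pool.Agent.Helper11.WeakMax
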